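import Pool.Agent.Y916.HStm
import Pool.Agent.Y419.LB.Base

/-!
The square root `√(φ(0) / φ)`: existence, and the G-system `1, √(φ(0) / φ)`.
-/

set_option autoImplicit false

open PowerSeries Finset.HasAntidiagonal

namespace Pool.Agent.Y419.HY

open Pool.Agent.Y113 Pool.Agent.Y419.LB

/-! ## existence -/

lemma sqrt_exists (e : ℚ⟦X⟧) (he : constantCoeff e = 1) :
    ∃ R : ℚ⟦X⟧, R ^ 2 = e ∧ constantCoeff R = 1 := by
  have h0 : constantCoeff (e - 1) = 0 := by rw [map_sub, he]; simp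
  have hs : PowerSeries.HasSubst (e - 1) := PowerSeries.HasSubst.of_constantCoeff_zero' h0
  have hB : (PowerSeries.binomialSeries ℚ (1 / 2 : ℚ)) ^ 2 = 1 + X := by
    rw [pow_two, ← PowerSeries.binomialSeries_add, show (1 / 2 : ℚ) + 1 / 2 = ((1 : ℕ) : ℚ) by norm_num,
      PowerSeries.binomialSeries_nat, pow_one]
  refine ⟨(PowerSeries.binomialSeries ℚ (1 / 2 : ℚ)).subst (e - 1), ?_, ?_⟩
  · rw [← PowerSeries.coe_substAlgHom hs, ← map_pow, hB, map_add, map_one, PowerSeries.coe_substAlgHom hs,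
      PowerSeries.subst_X hs]
    ring
  · have h1 : (PowerSeries.binomialSeries ℚ (1 / 2 : ℚ)) = 1 + X * (PowerSeries.mk fun n => coeff (n + 1)
        (PowerSeries.binomialSeries ℚ (1 / 2 : ℚ))) := by
      have h2 := PowerSeries.eq_X_mul_shift_add_const (PowerSeries.binomialSeries ℚ (1 / 2 : ℚ))
      rw [PowerSeries.binomialSeries_constantCoeff, map_one] at h2
      rw [add_comm]
      exact h2
    rw [← PowerSeries.coe_substAlgHom hs, h1, map_add, map_one, map_mul, PowerSeries.coe_substAlgHom hs,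
      PowerSeries.subst_X hs, map_add, map_mul, h0]
    simp

theorem t_rt : Pool.Agent.Y916.Hy.S_rt := by
  intro φ hφ
  have hex : ∃ R : ℚ⟦X⟧, R ^ 2 * ps φ = PowerSeries.C ((φ.coeff 0 : ℤ) : ℚ) ∧ constantCoeff R = 1 := by
    have hc : constantCoeff (ps φ) = ((φ.coeff 0 : ℤ) : ℚ) := by
      rw [← coeff_zero_eq_constantCoeff_apply, coeff_ps]
    have hc0 : ((φ.coeff 0 : ℤ) : ℚ) ≠ 0 := by exact_mod_cast hφ.ne'
    have hinv : (ps φ)⁻¹ * ps φ = 1 := PowerSeries.inv_mul_cancel _ (by rw [hc]; exact hc0)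
    obtain ⟨R, hR, hR0⟩ := sqrt_exists (PowerSeries.C ((φ.coeff 0 : ℤ) : ℚ) * (ps φ)⁻¹) (by
      rw [map_mul, PowerSeries.constantCoeff_inv, hc, PowerSeries.constantCoeff_C]
      exact mul_inv_cancel₀ hc0)
    refine ⟨R, ?_, hR0⟩
    rw [hR, mul_assoc, hinv, mul_one]
  unfold Pool.Agent.Y916.Hy.Rt
  rw [dif_pos hex]
  exact hex.choose_spec

/-! ## the recursion of Catalan type -/

/-- `A 0 = B 0`, `A (n + 1) = 4 ^ (n + 1) B (n + 1) - ∑ A i A (n - i)` -/
noncomputable def Ar (B : ℕ → Polynomial ℤ) : ℕ → Polynomial ℤ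
  | 0 => B 0
  | n + 1 => Polynomial.C (4 ^ (n + 1) : ℤ) * B (n + 1) - ∑ i : Fin n.succ, Ar B i * Ar B (n - i)

lemma Ar_zero (B : ℕ → Polynomial ℤ) : Ar B 0 = B 0 := by rw [Ar]

lemma Ar_succ (B : ℕ → Polynomial ℤ) (n : ℕ) :
    Ar B (n + 1) = Polynomial.C (4 ^ (n + 1) : ℤ) * B (n + 1) - ∑ p ∈ antidiagonal n, Ar B p.1 * Ar B p.2 := by
  rw [Ar, Finset.Nat.sum_antidiagonal_eq_sum_range_succ (fun x y => Ar B x * Ar B y) n, Finset.sum_range]

lemma Dm.C (c : ℤ) : Dm (Polynomial.C c) |(c : ℝ)| := by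
  refine ⟨Polynomial.C |(c : ℝ)|, fun l => ?_, by simp⟩
  rw [Polynomial.coeff_C, Polynomial.coeff_C]
  split_ifs <;> simp

lemma Ar_bd {B : ℕ → Polynomial ℤ} {K M : ℝ} (hK : 0 ≤ K) (hM : 0 ≤ M) (hK1 : 1 ≤ K)
    (hB : ∀ n, Dm (B n) (K * M ^ (n + 1))) (n : ℕ) :
    Dm (Ar B n) ((catalan n : ℝ) * (4 * K * M) ^ (n + 1) / 2) := by
  induction n using Nat.strong_induction_on with
  | _ n ih =>
    rcases n with _ | n
    · rw [Ar_zero]
      refine (hB 0).mono ?_
      rw [catalan_zero]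
      have : 0 ≤ K * M := mul_nonneg hK hM
      simp only [Nat.cast_one, one_mul, zero_add, pow_one]
      linarith
    · rw [Ar_succ, sub_eq_add_neg]
      have h1 : Dm (Polynomial.C (4 ^ (n + 1) : ℤ) * B (n + 1)) (4 ^ (n + 1) * (K * M ^ (n + 2))) := by
        have := (Dm.C (4 ^ (n + 1) : ℤ)).mul (hB (n + 1))
        push_cast at this
        rwa [abs_of_nonneg (by positivity)] at this
      have h2 : Dm (∑ p ∈ antidiagonal n, Ar B p.1 * Ar B p.2)
          (∑ p ∈ antidiagonal n, ((catalan p.1 : ℝ) * (4 * K * M) ^ (p.1 + 1) / 2) *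
            ((catalan p.2 : ℝ) * (4 * K * M) ^ (p.2 + 1) / 2)) := by
        refine Dm.sum _ fun p hp => ?_
        rw [Finset.HasAntidiagonal.mem_antidiagonal] at hp
        exact (ih p.1 (by omega)).mul (ih p.2 (by omega))
      have h3 : ∑ p ∈ antidiagonal n, ((catalan p.1 : ℝ) * (4 * K * M) ^ (p.1 + 1) / 2) *
            ((catalan p.2 : ℝ) * (4 * K * M) ^ (p.2 + 1) / 2)
          = (catalan (n + 1) : ℝ) * (4 * K * M) ^ (n + 2) / 4 := by
        rw [catalan_succ']
        push_cast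
        rw [Finset.sum_mul, Finset.sum_div]
        refine Finset.sum_congr rfl fun p hp => ?_
        rw [Finset.HasAntidiagonal.mem_antidiagonal] at hp
        rw [← hp, show p.1 + p.2 + 2 = (p.1 + 1) + (p.2 + 1) by ring, pow_add]
        ring
      rw [h3] at h2
      refine (h1.add h2.neg).mono ?_
      have h4 : (1 : ℝ) ≤ catalan (n + 1) := by
        have : 0 < catalan (n + 1) := by
          rw [catalan_eq_centralBinom_div]
          exact Nat.div_pos (Nat.le_of_dvd (Nat.centralBinom_pos _) (Nat.succ_dvd_centralBinom _))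
            (by omega)
        exact_mod_cast this
      have h5 : (4 : ℝ) ^ (n + 1) * (K * M ^ (n + 2)) ≤ (4 * K * M) ^ (n + 2) / 4 := by
        have h6 : K ≤ K ^ (n + 2) := le_self_pow₀ hK1 (by omega)
        rw [mul_pow, mul_pow, pow_succ (4 : ℝ) (n + 1)]
        have h7 : 0 ≤ (4 : ℝ) ^ (n + 1) * M ^ (n + 2) := by positivity
        nlinarith
      have h8 : 0 ≤ (4 * K * M) ^ (n + 1 + 1) := by positivity
      nlinarith

lemma Ar_bd' {B : ℕ → Polynomial ℤ} {K M : ℝ} (hK : 0 ≤ K) (hM : 0 ≤ M) (hK1 : 1 ≤ K)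
    (hB : ∀ n, Dm (B n) (K * M ^ (n + 1))) (n : ℕ) :
    Dm (Ar B n) ((16 * K * M) ^ (n + 1) / 8) := by
  refine (Ar_bd hK hM hK1 hB n).mono ?_
  have h1 : (catalan n : ℝ) ≤ 4 ^ n := by
    have h2 : catalan n ≤ 4 ^ n := by
      rw [catalan_eq_centralBinom_div]
      exact (Nat.div_le_self _ _).trans (Nat.centralBinom_le_four_pow n)
    exact_mod_cast h2
  have h3 : 0 ≤ (4 * K * M) ^ (n + 1) := by positivity
  have h4 : (16 * K * M) ^ (n + 1) = 4 ^ n * 4 * (4 * K * M) ^ (n + 1) := by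
    rw [show 16 * K * M = 4 * (4 * K * M) by ring, mul_pow 4, pow_succ (4 : ℝ) n]
  rw [h4]
  nlinarith

lemma Ar_deg {B : ℕ → Polynomial ℤ} {q : ℕ} (hB : ∀ n, (B n).natDegree ≤ q * (n + 1)) (n : ℕ) :
    (Ar B n).natDegree ≤ q * (n + 1) := by
  induction n using Nat.strong_induction_on with
  | _ n ih =>
    rcases n with _ | n
    · rw [Ar_zero]; exact hB 0
    · rw [Ar_succ]
      refine (Polynomial.natDegree_sub_le _ _).trans (max_le ?_ ?_)
      · exact (Polynomial.natDegree_C_mul_le _ _).trans (hB (n + 1))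
      · refine Polynomial.natDegree_sum_le_of_forall_le _ _ fun p hp => ?_
        rw [Finset.HasAntidiagonal.mem_antidiagonal] at hp
        refine Polynomial.natDegree_mul_le.trans ((add_le_add (ih p.1 (by omega)) (ih p.2 (by omega))).trans
          (le_of_eq ?_))
        rw [← hp]
        ring

/-- the values of the recursion -/
lemma Ar_val {A : Type} [CommRing A] [Algebra ℚ A] (B : ℕ → Polynomial ℤ) (f : Polynomial ℤ →+* A) (r b : ℕ → A)
    (hb : ∀ n, f (B n) = b n) (h0 : 2 * r 0 = b 0)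
    (hr : ∀ n, 2 * r (n + 1) + ∑ p ∈ antidiagonal n, r p.1 * r p.2 = b (n + 1)) (n : ℕ) :
    f (Ar B n) = 2 ^ (2 * n + 1) * r n := by
  induction n using Nat.strong_induction_on with
  | _ n ih =>
    rcases n with _ | n
    · rw [Ar_zero, hb, ← h0]; ring
    · rw [Ar_succ, map_sub, map_mul, hb, ← hr, map_sum]
      have h1 : ∀ p ∈ antidiagonal n, f (Ar B p.1 * Ar B p.2) = 2 ^ (2 * n + 2) * (r p.1 * r p.2) := by
        intro p hp
        rw [Finset.HasAntidiagonal.mem_antidiagonal] at hp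
        rw [map_mul, ih p.1 (by omega), ih p.2 (by omega), ← hp]
        ring
      rw [Finset.sum_congr rfl h1, ← Finset.mul_sum]
      have h2 : f (Polynomial.C (4 ^ (n + 1) : ℤ)) = 2 ^ (2 * n + 2) := by
        rw [map_pow]
        simp only [map_pow]
        rw [show (2 : ℕ) * n + 2 = 2 * (n + 1) by ring, pow_mul]
        congr 1
        have : (Polynomial.C (4 : ℤ) : Polynomial ℤ) = ((4 : ℕ) : Polynomial ℤ) := by simp
        rw [this, map_natCast]
        norm_num
      rw [h2]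
      ring

/-- the numerators of the derivatives of `V = 1 / T` -/
lemma numerV {n : ℕ} {T : Polynomial ℤ} {H : ℝ} (hH : 1 ≤ H) (hn : T.natDegree ≤ n)
    (hT : ∀ l, |((T.coeff l : ℤ) : ℝ)| ≤ H) {V : ℚ⟦X⟧} (hV : ps T * V = 1) (k : ℕ) :
    ∃ P : Polynomial ℤ, P.natDegree ≤ n * k ∧ Dm P ((((n : ℝ) + 1) * H * (1 + 2 ^ n)) ^ k) ∧
      ps P = ps T ^ (k + 1) * hd k V := by
  set L : ℝ := ((n : ℝ) + 1) * H with hL
  have hL0 : 0 ≤ L := by positivity
  have hDT : Dm T L := Dm.of_bound hn (by linarith) fun l _ => hT l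
  have hDh : ∀ j, Dm (Polynomial.hasseDeriv j T) (2 ^ n * L) := by
    intro j
    have h1 : (Polynomial.hasseDeriv j T).natDegree ≤ n :=
      (Polynomial.natDegree_hasseDeriv_le T j).trans (by omega)
    refine (Dm.of_bound (B := 2 ^ n * H) h1 (by positivity) fun l _ => ?_).mono (le_of_eq ?_)
    · rw [Polynomial.hasseDeriv_coeff]
      push_cast
      rw [abs_mul]
      by_cases hl : l + j ≤ n
      · refine mul_le_mul ?_ (hT _) (abs_nonneg _) (by positivity)
        rw [abs_of_nonneg (by positivity)]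
        have h2 : (l + j).choose j ≤ 2 ^ n := (Nat.choose_le_two_pow _ _).trans
          (Nat.pow_le_pow_right (by norm_num) hl)
        exact_mod_cast h2
      · rw [Polynomial.coeff_eq_zero_of_natDegree_lt (by omega)]
        simp only [Int.cast_zero, abs_zero, mul_zero]
        positivity
    · rw [hL]; ring
  clear_value L
  induction k using Nat.strong_induction_on with
  | _ k ih =>
    rcases k with _ | k
    · refine ⟨1, by simp, by simpa using Dm.one, ?_⟩
      rw [ps_one, hd_zero, zero_add, pow_one, hV]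
    choose! P hP1 hP2 hP3 using ih
    refine ⟨- ∑ j ∈ Finset.range (k + 1), T ^ j * Polynomial.hasseDeriv (j + 1) T * P (k - j), ?_, ?_, ?_⟩
    · rw [Polynomial.natDegree_neg]
      refine Polynomial.natDegree_sum_le_of_forall_le _ _ fun j hj => ?_
      rw [Finset.mem_range] at hj
      refine Polynomial.natDegree_mul_le.trans ?_
      have e1 : (T ^ j * Polynomial.hasseDeriv (j + 1) T).natDegree ≤ n * j + n := by
        refine Polynomial.natDegree_mul_le.trans (add_le_add ?_ ?_)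
        · refine Polynomial.natDegree_pow_le.trans ?_
          rw [mul_comm]
          exact Nat.mul_le_mul_right _ hn
        · exact (Polynomial.natDegree_hasseDeriv_le T _).trans (by omega)
      refine (add_le_add e1 (hP1 (k - j) (by omega))).trans (le_of_eq ?_)
      obtain ⟨r, rfl⟩ : ∃ r, k = j + r := ⟨k - j, by omega⟩
      rw [show j + r - j = r by omega]
      ring
    · refine (Dm.neg (Dm.sum _ (A := fun j => L ^ j * (2 ^ n * L) * (L * (1 + 2 ^ n)) ^ (k - j))
        fun j hj => ?_)).mono ?_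
      · rw [Finset.mem_range] at hj
        exact ((hDT.pow j).mul (hDh (j + 1))).mul (hP2 (k - j) (by omega))
      · have e1 : ∀ j ∈ Finset.range (k + 1), L ^ j * (2 ^ n * L) * (L * (1 + 2 ^ n)) ^ (k - j)
            = L ^ (k + 1) * (2 ^ n * (1 + 2 ^ n) ^ (k + 1 - 1 - j)) := by
          intro j hj
          rw [Finset.mem_range] at hj
          have e2 : L ^ (k + 1) = L ^ j * L * L ^ (k - j) := by
            rw [← pow_succ, ← pow_add]
            congr 1
            omega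
          rw [e2, mul_pow L, show k + 1 - 1 - j = k - j by omega]
          ring
        rw [Finset.sum_congr rfl e1, ← Finset.mul_sum,
          Finset.sum_range_reflect (fun j => (2 : ℝ) ^ n * (1 + 2 ^ n) ^ j) (k + 1), ← Finset.mul_sum]
        have h5 := geom_sum_mul (1 + (2 : ℝ) ^ n) (k + 1)
        rw [add_sub_cancel_left] at h5
        rw [mul_comm ((2 : ℝ) ^ n) (∑ j ∈ Finset.range (k + 1), (1 + (2 : ℝ) ^ n) ^ j), h5, mul_pow L]
        have h6 : 0 ≤ L ^ (k + 1) := by positivity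
        nlinarith
    · have hneg : ∀ Q : Polynomial ℤ, ps (-Q) = - ps Q := fun Q => by
        rw [← zero_sub, ps_sub, ps_zero, zero_sub]
      rw [hneg, ps_sum]
      have h1 := hd_mul (k + 1) (ps T) V
      rw [hV, Y419.LB.hd_one (k + 1) (by omega), Finset.Nat.sum_antidiagonal_eq_sum_range_succ_mk,
        Finset.sum_range_succ'] at h1
      simp only [Nat.sub_zero, hd_zero] at h1
      have h2 : ∀ j ∈ Finset.range (k + 1), ps (T ^ j * Polynomial.hasseDeriv (j + 1) T * P (k - j))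
          = ps T ^ (k + 1) * (hd (j + 1) (ps T) * hd (k + 1 - (j + 1)) V) := by
        intro j hj
        rw [Finset.mem_range] at hj
        rw [ps_mul, ps_mul, ps_pow, ps_hasse, hP3 (k - j) (by omega),
          show k + 1 - (j + 1) = k - j by omega]
        have e2 : ps T ^ (k + 1) = ps T ^ j * ps T ^ (k - j + 1) := by
          rw [← pow_add]
          congr 1
          omega
        rw [e2]
        ring
      rw [Finset.sum_congr rfl h2, ← Finset.mul_sum]
      have h3 : ∑ j ∈ Finset.range (k + 1), hd (j + 1) (ps T) * hd (k + 1 - (j + 1)) V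
          = - (ps T * hd (k + 1) V) := by
        linear_combination -h1
      rw [h3]
      ring

/-- the coefficients of `φ(0) / φ` -/
lemma inv_coeff {φ : Polynomial ℤ} {H : ℝ} (h0 : 0 < φ.coeff 0) (hH : ∀ l, |((φ.coeff l : ℤ) : ℝ)| ≤ H)
    {e : ℚ⟦X⟧} (he : ps φ * e = PowerSeries.C ((φ.coeff 0 : ℤ) : ℚ)) (m : ℕ) :
    ∃ a : ℤ, ((φ.coeff 0 : ℤ) : ℚ) ^ m * coeff m e = a ∧ |(a : ℝ)| ≤ (2 * H) ^ m := by
  have ha1 : (1 : ℝ) ≤ ((φ.coeff 0 : ℤ) : ℝ) := by exact_mod_cast h0
  have hH1 : (1 : ℝ) ≤ H := ha1.trans ((le_abs_self _).trans (hH 0))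
  have ha0 : ((φ.coeff 0 : ℤ) : ℚ) ≠ 0 := by exact_mod_cast h0.ne'
  induction m using Nat.strong_induction_on with
  | _ m ih =>
    rcases m with _ | m
    · refine ⟨1, ?_, by simp⟩
      have h1 := congrArg (coeff 0) he
      rw [coeff_mul, coeff_C, if_pos rfl, Finset.Nat.antidiagonal_zero, Finset.sum_singleton, coeff_ps] at h1
      have h2 : coeff 0 e = 1 := mul_left_cancel₀ ha0 (by rw [h1, mul_one])
      rw [h2]
      simp
    · have h1 := congrArg (coeff (m + 1)) he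
      rw [coeff_mul, coeff_C, if_neg (by omega), Finset.Nat.sum_antidiagonal_succ, coeff_ps] at h1
      choose! a ha1' ha2 using ih
      refine ⟨-∑ p ∈ antidiagonal m, φ.coeff (p.1 + 1) * (φ.coeff 0) ^ p.1 * a p.2, ?_, ?_⟩
      · push_cast
        have h2 : ∀ p ∈ antidiagonal m, ((φ.coeff (p.1 + 1) : ℤ) : ℚ) * ((φ.coeff 0 : ℤ) : ℚ) ^ p.1 * (a p.2 : ℚ)
            = ((φ.coeff 0 : ℤ) : ℚ) ^ m * (coeff (p.1 + 1) (ps φ) * coeff p.2 e) := by
          intro p hp
          rw [Finset.HasAntidiagonal.mem_antidiagonal] at hp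
          rw [coeff_ps, ← ha1' p.2 (by omega), ← hp, pow_add]
          ring
        rw [Finset.sum_congr rfl h2, ← Finset.mul_sum, pow_succ]
        simp only at h1
        linear_combination ((φ.coeff 0 : ℤ) : ℚ) ^ m * h1
      · push_cast
        rw [abs_neg]
        refine (Finset.abs_sum_le_sum_abs _ _).trans ?_
        have h3 : ∀ p ∈ antidiagonal m, |((φ.coeff (p.1 + 1) : ℤ) : ℝ) * ((φ.coeff 0 : ℤ) : ℝ) ^ p.1 * (a p.2 : ℝ)|
            ≤ H ^ (m + 1) * 2 ^ p.2 := by
          intro p hp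
          rw [Finset.HasAntidiagonal.mem_antidiagonal] at hp
          rw [abs_mul, abs_mul, abs_pow]
          calc |((φ.coeff (p.1 + 1) : ℤ) : ℝ)| * |((φ.coeff 0 : ℤ) : ℝ)| ^ p.1 * |(a p.2 : ℝ)|
              ≤ H * H ^ p.1 * (2 * H) ^ p.2 := by
                refine mul_le_mul (mul_le_mul (hH _) (pow_le_pow_left₀ (abs_nonneg _) (hH 0) _) (by positivity)
                  (by linarith)) (ha2 p.2 (by omega)) (abs_nonneg _) (by positivity)
            _ = H ^ (m + 1) * 2 ^ p.2 := by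
                rw [← hp, mul_pow, pow_succ, pow_add]
                ring
        refine (Finset.sum_le_sum h3).trans ?_
        rw [← Finset.mul_sum, Finset.Nat.sum_antidiagonal_eq_sum_range_succ_mk]
        simp only
        have h4 := Finset.sum_range_reflect (fun j => (2 : ℝ) ^ j) (m + 1)
        have h4' : ∑ j ∈ Finset.range (m + 1), (2 : ℝ) ^ (m - j) = ∑ j ∈ Finset.range (m + 1), (2 : ℝ) ^ j := by
          rw [← h4]
          exact Finset.sum_congr rfl fun j _ => by rw [show m + 1 - 1 - j = m - j by omega]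
        have h5 := geom_sum_mul (2 : ℝ) (m + 1)
        have h6 : ∑ j ∈ Finset.range (m + 1), (2 : ℝ) ^ j ≤ 2 ^ (m + 1) := by
          have : ∑ j ∈ Finset.range (m + 1), (2 : ℝ) ^ j = 2 ^ (m + 1) - 1 := by
            rw [← h5]; ring
          rw [this]
          linarith
        rw [h4', mul_pow, mul_comm]
        exact mul_le_mul_of_nonneg_right h6 (by positivity)

/-- the coefficients of `√(φ(0) / φ)` -/
lemma R_coeff {φ : Polynomial ℤ} {H : ℝ} (h0 : 0 < φ.coeff 0) (hH : ∀ l, |((φ.coeff l : ℤ) : ℝ)| ≤ H)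
    {R : ℚ⟦X⟧} (hR : R ^ 2 * ps φ = PowerSeries.C ((φ.coeff 0 : ℤ) : ℚ)) (hR0 : constantCoeff R = 1) (m : ℕ) :
    ∃ a : ℤ, 2 ^ (2 * m + 1) * (((φ.coeff 0 : ℤ) : ℚ) ^ (m + 1) * coeff (m + 1) R) = a ∧
      |(a : ℝ)| ≤ (16 * (2 * H)) ^ (m + 1) := by
  have ha1 : (1 : ℝ) ≤ ((φ.coeff 0 : ℤ) : ℝ) := by exact_mod_cast h0
  have hH1 : (1 : ℝ) ≤ H := ha1.trans ((le_abs_self _).trans (hH 0))
  have he : ps φ * R ^ 2 = PowerSeries.C ((φ.coeff 0 : ℤ) : ℚ) := by rw [mul_comm]; exact hR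
  choose b hb1 hb2 using fun m => inv_coeff h0 hH he m
  have hR0' : coeff 0 R = 1 := by rw [coeff_zero_eq_constantCoeff_apply]; exact hR0
  have hB : ∀ n, Dm (Polynomial.C (b (n + 1))) (1 * (2 * H) ^ (n + 1)) := fun n =>
    (Dm.C _).mono (by rw [one_mul]; exact hb2 (n + 1))
  have h1 := Ar_bd' zero_le_one (by linarith) le_rfl hB m
  have h2 := Ar_val (A := ℚ) (fun n => Polynomial.C (b (n + 1)))
    ((Int.castRingHom ℚ).comp Polynomial.constantCoeff)
    (fun n => ((φ.coeff 0 : ℤ) : ℚ) ^ (n + 1) * coeff (n + 1) R)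
    (fun n => ((φ.coeff 0 : ℤ) : ℚ) ^ (n + 1) * coeff (n + 1) (R ^ 2))
    (fun n => by rw [hb1]; simp) (by
      simp only [zero_add, pow_one]
      rw [pow_two, coeff_mul, Finset.Nat.sum_antidiagonal_succ, Finset.Nat.antidiagonal_zero,
        Finset.sum_singleton, hR0']
      ring) (fun n => by
      rw [pow_two R, coeff_mul, Finset.Nat.sum_antidiagonal_succ, Finset.Nat.sum_antidiagonal_succ', hR0']
      have h3 : ∀ p ∈ antidiagonal n, ((φ.coeff 0 : ℤ) : ℚ) ^ (p.1 + 1) * coeff (p.1 + 1) R *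
          (((φ.coeff 0 : ℤ) : ℚ) ^ (p.2 + 1) * coeff (p.2 + 1) R) =
          ((φ.coeff 0 : ℤ) : ℚ) ^ (n + 2) * (coeff (p.1 + 1) R * coeff (p.2 + 1) R) := by
        intro p hp
        rw [Finset.HasAntidiagonal.mem_antidiagonal] at hp
        rw [← hp]
        ring
      rw [Finset.sum_congr rfl h3, ← Finset.mul_sum]
      ring) m
  refine ⟨(Ar (fun n => Polynomial.C (b (n + 1))) m).coeff 0, ?_, ?_⟩
  · rw [← h2]
    simp [Polynomial.constantCoeff_apply]
  · refine (h1.coeff 0).trans ?_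
    rw [show 16 * 1 * (2 * H) = 16 * (2 * H) by ring]
    have : 0 ≤ (16 * (2 * H)) ^ (m + 1) := by positivity
    linarith

/-- `ps` as a ring homomorphism -/
noncomputable def psHom : Polynomial ℤ →+* ℚ⟦X⟧ :=
  (Polynomial.coeToPowerSeries.ringHom (R := ℚ)).comp (Polynomial.mapRingHom (Int.castRingHom ℚ))

lemma psHom_apply (P : Polynomial ℤ) : psHom P = ps P := rfl

/-- the derivatives of `√(φ(0) / φ)` -/
lemma R_hd {n : ℕ} {φ : Polynomial ℤ} {H : ℝ} (h0 : 0 < φ.coeff 0) (hn : φ.natDegree ≤ n)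
    (hH : ∀ l, |((φ.coeff l : ℤ) : ℝ)| ≤ H)
    {R : ℚ⟦X⟧} (hR : R ^ 2 * ps φ = PowerSeries.C ((φ.coeff 0 : ℤ) : ℚ)) (m : ℕ) :
    ∃ P : Polynomial ℤ, P.natDegree ≤ n * (m + 1) ∧
      (∀ l, |((P.coeff l : ℤ) : ℝ)| ≤ (16 * (((n : ℝ) + 1) * H * (1 + 2 ^ n))) ^ (m + 1) / 8) ∧
      ps P * R = 2 ^ (2 * m + 1) * (ps φ ^ (m + 1) * hd (m + 1) R) := by
  have ha1 : (1 : ℝ) ≤ ((φ.coeff 0 : ℤ) : ℝ) := by exact_mod_cast h0
  have hH1 : (1 : ℝ) ≤ H := ha1.trans ((le_abs_self _).trans (hH 0))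
  have ha0 : ((φ.coeff 0 : ℤ) : ℚ) ≠ 0 := by exact_mod_cast h0.ne'
  have hca : PowerSeries.C ((φ.coeff 0 : ℤ) : ℚ)⁻¹ * PowerSeries.C ((φ.coeff 0 : ℤ) : ℚ) = 1 := by
    rw [← map_mul, inv_mul_cancel₀ ha0, map_one]
  set c := PowerSeries.C ((φ.coeff 0 : ℤ) : ℚ)⁻¹ with hc
  -- `R` is invertible, with inverse `W`
  set W : ℚ⟦X⟧ := c * (R * ps φ) with hW
  have hRW : R * W = 1 := by
    rw [hW, ← hca, ← hR]; ring
  set V : ℚ⟦X⟧ := c * R ^ 2 with hVd
  have hV : ps φ * V = 1 := by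
    rw [hVd, ← hca, ← hR]; ring
  choose P hP1 hP2 hP3 using fun k => numerV hH1 hn hH hV k
  have hB : ∀ k, Dm (P (k + 1)) (1 * (((n : ℝ) + 1) * H * (1 + 2 ^ n)) ^ (k + 1)) := fun k => by
    rw [one_mul]; exact hP2 (k + 1)
  have hD := Ar_deg (B := fun k => P (k + 1)) (q := n) (fun k => hP1 (k + 1)) m
  have hS := Ar_bd' zero_le_one (by positivity) le_rfl hB m
  rw [mul_one] at hS
  -- `φ^(k+1) hd (k+1) V = φ^k W² hd (R²)`
  have hVW : ∀ k, ps φ ^ (k + 1) * hd k V = ps φ ^ k * (W ^ 2 * hd k (R ^ 2)) := by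
    intro k
    have e1 : hd k V = c * hd k (R ^ 2) := by rw [hVd, hc, hd_C_mul]
    have e2 : ps φ * c = W ^ 2 := by
      calc ps φ * c = ps φ * c * (R * W) := by rw [hRW, mul_one]
        _ = W ^ 2 := by rw [hW]; ring
    rw [e1, pow_succ]
    linear_combination (ps φ ^ k * hd k (R ^ 2)) * e2
  have h2 := Ar_val (A := ℚ⟦X⟧) (fun k => P (k + 1)) psHom
    (fun k => ps φ ^ (k + 1) * hd (k + 1) R * W)
    (fun k => ps φ ^ (k + 1) * (W ^ 2 * hd (k + 1) (R ^ 2)))
    (fun k => by rw [psHom_apply, hP3, hVW]) (by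
      simp only [zero_add, pow_one]
      rw [pow_two R, hd_mul, Finset.Nat.sum_antidiagonal_succ, Finset.Nat.antidiagonal_zero,
        Finset.sum_singleton]
      simp only [hd_zero, zero_add]
      linear_combination (-2 * ps φ * hd 1 R * W) * hRW) (fun k => by
      rw [pow_two R, hd_mul, Finset.Nat.sum_antidiagonal_succ, Finset.Nat.sum_antidiagonal_succ']
      have h3 : ∀ p ∈ antidiagonal k, ps φ ^ (p.1 + 1) * hd (p.1 + 1) R * W *
          (ps φ ^ (p.2 + 1) * hd (p.2 + 1) R * W) =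
          ps φ ^ (k + 2) * W ^ 2 * (hd (p.1 + 1) R * hd (p.2 + 1) R) := by
        intro p hp
        rw [Finset.HasAntidiagonal.mem_antidiagonal] at hp
        rw [← hp]
        ring
      rw [Finset.sum_congr rfl h3, ← Finset.mul_sum]
      simp only [hd_zero]
      linear_combination (-2 * ps φ ^ (k + 2) * hd (k + 2) R * W) * hRW) m
  refine ⟨Ar (fun k => P (k + 1)) m, hD, fun l => hS.coeff l, ?_⟩
  rw [← psHom_apply, h2]
  linear_combination (2 ^ (2 * m + 1) * (ps φ ^ (m + 1) * hd (m + 1) R)) * hRW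

theorem t_alg : Pool.Agent.Y916.Hy.S_alg := by
  intro n
  refine ⟨2 * n + 6, fun H φ h0 hn hT => ?_⟩
  obtain ⟨hR, hR0⟩ := t_rt φ h0
  set R := Pool.Agent.Y916.Hy.Rt φ with hRd
  clear_value R
  have hTr : ∀ l, |((φ.coeff l : ℤ) : ℝ)| ≤ H := fun l => by exact_mod_cast hT l
  have ha1 : (1 : ℝ) ≤ ((φ.coeff 0 : ℤ) : ℝ) := by exact_mod_cast h0
  have hH1 : (1 : ℝ) ≤ H := ha1.trans ((le_abs_self _).trans (hTr 0))
  have haH : ((φ.coeff 0 : ℤ) : ℝ) ≤ H := (le_abs_self _).trans (hTr 0)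
  set C : ℝ := ((H : ℝ) + 2) ^ (2 * n + 6) with hC
  have hb1 : (1 : ℝ) ≤ (H : ℝ) + 2 := by linarith
  have hb2 : (2 : ℝ) ≤ (H : ℝ) + 2 := by linarith
  have hC1 : 1 ≤ C := one_le_pow₀ hb1
  have hHC : (H : ℝ) ≤ C := by
    calc (H : ℝ) ≤ (H : ℝ) + 2 := by linarith
      _ = ((H : ℝ) + 2) ^ 1 := (pow_one _).symm
      _ ≤ _ := pow_le_pow_right₀ hb1 (by omega)
  have h32 : 16 * (2 * (H : ℝ)) ≤ C := by
    calc 16 * (2 * (H : ℝ)) ≤ ((H : ℝ) + 2) ^ 5 * ((H : ℝ) + 2) := by
          have : (2 : ℝ) ^ 5 ≤ ((H : ℝ) + 2) ^ 5 := pow_le_pow_left₀ (by norm_num) hb2 _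
          nlinarith
      _ = ((H : ℝ) + 2) ^ 6 := by ring
      _ ≤ _ := pow_le_pow_right₀ hb1 (by omega)
  have hbig : 16 * (((n : ℝ) + 1) * H * (1 + 2 ^ n)) ≤ C := by
    have e1 : (16 : ℝ) ≤ ((H : ℝ) + 2) ^ 4 := by
      calc (16 : ℝ) = 2 ^ 4 := by norm_num
        _ ≤ _ := pow_le_pow_left₀ (by norm_num) hb2 _
    have e2 : (n : ℝ) + 1 ≤ ((H : ℝ) + 2) ^ n :=
      (succ_le_two_pow n).trans (pow_le_pow_left₀ (by norm_num) hb2 _)
    have e3 : (H : ℝ) ≤ ((H : ℝ) + 2) ^ 1 := by rw [pow_one]; linarith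
    have e4 : 1 + (2 : ℝ) ^ n ≤ ((H : ℝ) + 2) ^ (n + 1) := by
      have : (1 : ℝ) ≤ 2 ^ n := one_le_pow₀ (by norm_num)
      calc 1 + (2 : ℝ) ^ n ≤ 2 ^ (n + 1) := by rw [pow_succ]; linarith
        _ ≤ _ := pow_le_pow_left₀ (by norm_num) hb2 _
    calc (16 : ℝ) * ((((n : ℝ) + 1) * H) * (1 + 2 ^ n))
        ≤ ((H : ℝ) + 2) ^ 4 * ((((H : ℝ) + 2) ^ n * ((H : ℝ) + 2) ^ 1) * ((H : ℝ) + 2) ^ (n + 1)) := by
          gcongr
      _ = C := by
          rw [hC, ← pow_add, ← pow_add, ← pow_add]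
          congr 1
          ring
  refine ⟨hC1, hn, fun l => (hTr l).trans hHC, ?_, ?_, ?_⟩
  · rintro (_ | _) m
    · simp only [Bool.false_eq_true, if_false, coeff_one]
      have : (1 : ℝ) ≤ C ^ (m + 1) := one_le_pow₀ hC1
      split_ifs
      · simpa using this
      · simp only [Rat.cast_zero, abs_zero]; linarith
    · simp only [if_true]
      rcases m with _ | m
      · rw [coeff_zero_eq_constantCoeff_apply, hR0]
        simpa using hC1
      · obtain ⟨a, ha, hab⟩ := R_coeff h0 hTr hR hR0 m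
        have hx : (1 : ℝ) ≤ 2 ^ (2 * m + 1) * ((φ.coeff 0 : ℤ) : ℝ) ^ (m + 1) := by
          have e1 : (1 : ℝ) ≤ 2 ^ (2 * m + 1) := one_le_pow₀ (by norm_num)
          have e2 : (1 : ℝ) ≤ ((φ.coeff 0 : ℤ) : ℝ) ^ (m + 1) := one_le_pow₀ ha1
          nlinarith
        have hx2 : (2 ^ (2 * m + 1) * ((φ.coeff 0 : ℤ) : ℝ) ^ (m + 1)) * |((coeff (m + 1) R : ℚ) : ℝ)| =
            |(a : ℝ)| := by
          have := congrArg (fun z : ℚ => |(z : ℝ)|) ha
          push_cast at this
          rw [← this, ← mul_assoc, abs_mul, abs_of_nonneg (zero_le_one.trans hx)]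
        calc |((coeff (m + 1) R : ℚ) : ℝ)| ≤
              (2 ^ (2 * m + 1) * ((φ.coeff 0 : ℤ) : ℝ) ^ (m + 1)) * |((coeff (m + 1) R : ℚ) : ℝ)| :=
              le_mul_of_one_le_left (abs_nonneg _) hx
          _ = |(a : ℝ)| := hx2
          _ ≤ (16 * (2 * (H : ℝ))) ^ (m + 1) := hab
          _ ≤ C ^ (m + 1) := pow_le_pow_left₀ (by positivity) h32 _
          _ ≤ _ := pow_le_pow_right₀ hC1 (by omega)
  · intro m
    have haN : (((φ.coeff 0).toNat : ℕ) : ℤ) = φ.coeff 0 := Int.toNat_of_nonneg h0.le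
    have haNq : (((φ.coeff 0).toNat : ℕ) : ℚ) = ((φ.coeff 0 : ℤ) : ℚ) := by exact_mod_cast congrArg (Int.cast (R := ℚ)) haN
    have haNr : (((φ.coeff 0).toNat : ℕ) : ℝ) = ((φ.coeff 0 : ℤ) : ℝ) := by exact_mod_cast congrArg (Int.cast (R := ℝ)) haN
    have haNp : 0 < (φ.coeff 0).toNat := by omega
    refine ⟨(4 * (φ.coeff 0).toNat) ^ m, by positivity, ?_, ?_⟩
    · push_cast
      rw [haNr]
      calc (4 * ((φ.coeff 0 : ℤ) : ℝ)) ^ m ≤ C ^ m := pow_le_pow_left₀ (by linarith) (by linarith) _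
        _ ≤ _ := pow_le_pow_right₀ hC1 (by omega)
    · rintro (_ | _) j hj
      · simp only [Bool.false_eq_true, if_false, coeff_one]
        split_ifs
        · exact ⟨((4 * (φ.coeff 0).toNat) ^ m : ℕ), by push_cast; ring⟩
        · exact ⟨0, by simp⟩
      · simp only [if_true]
        rcases j with _ | j
        · rw [coeff_zero_eq_constantCoeff_apply, hR0]
          exact ⟨((4 * (φ.coeff 0).toNat) ^ m : ℕ), by push_cast; ring⟩
        · obtain ⟨a, ha, -⟩ := R_coeff h0 hTr hR hR0 j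
          obtain ⟨r, rfl⟩ : ∃ r, m = j + 1 + r := ⟨m - (j + 1), by omega⟩
          refine ⟨(4 * φ.coeff 0) ^ r * 2 * a, ?_⟩
          push_cast
          rw [← ha, haNq, pow_add, mul_pow, mul_pow]
          rw [show (4 : ℚ) ^ (j + 1) = 2 ^ (2 * j + 1) * 2 by
            rw [show (4 : ℚ) = 2 ^ 2 by norm_num, ← pow_mul, ← pow_succ]
            congr 1]
          ring
  · intro k
    refine ⟨4 ^ k, by positivity, ?_, ?_⟩
    · push_cast
      calc (4 : ℝ) ^ k ≤ C ^ k := pow_le_pow_left₀ (by norm_num) (by linarith) _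
        _ ≤ _ := pow_le_pow_right₀ hC1 (by omega)
    · intro s hs
      have h4k : (4 : ℝ) ^ k ≤ C ^ (k + 1) :=
        (pow_le_pow_left₀ (by norm_num) (by linarith) _).trans (pow_le_pow_right₀ hC1 (by omega))
      have hC0 : (0 : ℝ) ≤ C ^ (k + 1) := by positivity
      rcases s with _ | s
      · refine ⟨fun i j => if i = j then Polynomial.C (4 ^ k : ℤ) else 0, ?_, ?_, ?_⟩
        · intro i j
          dsimp only
          split_ifs
          · rw [Polynomial.natDegree_C]; omega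
          · simp
        · intro i j l
          dsimp only
          split_ifs
          · rw [Polynomial.coeff_C]
            split_ifs
            · push_cast
              rw [abs_of_nonneg (by positivity)]
              exact h4k
            · simpa using hC0
          · simpa using hC0
        · intro i
          rw [Finset.sum_eq_single i]
          · dsimp only
            rw [if_pos rfl, ps_C, hd_zero, pow_zero, one_mul]
            push_cast
            rfl
          · intro j _ hj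
            dsimp only
            rw [if_neg (Ne.symm hj), ps_zero, zero_mul]
          · intro h
            exact absurd (Finset.mem_univ i) h
      · obtain ⟨P, hP1, hP2, hP3⟩ := R_hd h0 hn hTr hR s
        obtain ⟨r, rfl⟩ : ∃ r, k = s + 1 + r := ⟨k - (s + 1), by omega⟩
        refine ⟨fun i j => if i = true ∧ j = true then Polynomial.C (4 ^ r * 2 : ℤ) * P else 0, ?_, ?_, ?_⟩
        · intro i j
          dsimp only
          split_ifs
          · exact (Polynomial.natDegree_C_mul_le _ _).trans hP1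
          · simp
        · intro i j l
          dsimp only
          split_ifs
          · rw [Polynomial.coeff_C_mul]
            push_cast
            rw [abs_mul, abs_of_nonneg (by positivity : (0 : ℝ) ≤ 4 ^ r * 2)]
            set M := 16 * (((n : ℝ) + 1) * H * (1 + 2 ^ n)) with hM
            have hM4 : 4 ≤ M := by
              have e1 : (1 : ℝ) ≤ (n : ℝ) + 1 := by linarith [show (0 : ℝ) ≤ n by positivity]
              have e2 : (1 : ℝ) ≤ ((n : ℝ) + 1) * H := by nlinarith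
              have e3 : (1 : ℝ) ≤ 1 + 2 ^ n := by linarith [show (0 : ℝ) ≤ 2 ^ n by positivity]
              have e4 : (1 : ℝ) ≤ ((n : ℝ) + 1) * H * (1 + 2 ^ n) := by nlinarith
              linarith
            have hM0 : 0 ≤ M ^ (s + 1) := by positivity
            calc (4 : ℝ) ^ r * 2 * |((P.coeff l : ℤ) : ℝ)| ≤ 4 ^ r * 2 * (M ^ (s + 1) / 8) :=
                  mul_le_mul_of_nonneg_left (hP2 l) (by positivity)
              _ ≤ 4 ^ r * M ^ (s + 1) := by
                  have : (0 : ℝ) ≤ 4 ^ r * M ^ (s + 1) := by positivity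
                  linarith
              _ ≤ M ^ r * M ^ (s + 1) :=
                  mul_le_mul_of_nonneg_right (pow_le_pow_left₀ (by norm_num) hM4 _) hM0
              _ = M ^ (s + 1 + r) := by rw [← pow_add]; congr 1; ring
              _ ≤ C ^ (s + 1 + r) := pow_le_pow_left₀ (by positivity) hbig _
              _ ≤ _ := pow_le_pow_right₀ hC1 (by omega)
          · simpa using hC0
        · rintro (_ | _)
          · simp only [Bool.false_eq_true, if_false, false_and]
            rw [Y419.LB.hd_one (s + 1) (by omega)]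
            simp [ps_zero]
          · rw [Fintype.sum_bool]
            simp only [Bool.false_eq_true, if_false, if_true, and_false, and_self, ps_zero, zero_mul, add_zero]
            rw [ps_mul, ps_C, mul_assoc, hP3]
            push_cast
            rw [pow_add (4 : ℚ⟦X⟧), show (4 : ℚ⟦X⟧) ^ (s + 1) = 2 ^ (2 * s + 1) * 2 by
              rw [show (4 : ℚ⟦X⟧) = 2 ^ 2 by norm_num, ← pow_mul, ← pow_succ]
              congr 1]
            ring

end Pool.Agent.Y419.HY
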