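import Pool.Agent.Y916.HStm
import Pool.Agent.Y419.LB.Base

/-!
Solutions of `2 z h' + a h = 2 r`, `a` odd, extend a G-system.
-/

set_option autoImplicit false

open PowerSeries Finset.HasAntidiagonal

namespace Pool.Agent.Y419.HY

open Pool.Agent.Y113 Pool.Agent.Y419.LB

/-! ## binomial coefficients of half-integers -/

/-- binomial coefficients of a rational number -/
noncomputable def bn (ρ : ℚ) (i : ℕ) : ℚ := ∏ j ∈ Finset.range i, (ρ - j) / (j + 1)

lemma bn_zero (ρ : ℚ) : bn ρ 0 = 1 := by simp [bn]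

lemma bn_succ (ρ : ℚ) (i : ℕ) : bn ρ (i + 1) = bn ρ i * ((ρ - i) / (i + 1)) := by
  unfold bn
  rw [Finset.prod_range_succ]

lemma bn_shift (ρ : ℚ) (i : ℕ) : ((i : ℚ) + 1) * bn (ρ + 1) (i + 1) = (ρ + 1) * bn ρ i := by
  induction i with
  | zero => simp [bn]
  | succ i ih =>
    rw [bn_succ (ρ + 1) (i + 1), bn_succ ρ i]
    have h1 : ((i : ℚ) + 1) ≠ 0 := by positivity
    have h2 : ((i : ℚ) + 1 + 1) ≠ 0 := by positivity
    push_cast
    field_simp
    linear_combination (ρ - i) * ih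

lemma bn_pascal (ρ : ℚ) (i : ℕ) : bn (ρ + 1) (i + 1) = bn ρ (i + 1) + bn ρ i := by
  have h1 : ((i : ℚ) + 1) ≠ 0 := by positivity
  have h2 := bn_shift ρ i
  rw [bn_succ]
  rw [bn_succ] at h2
  apply mul_left_cancel₀ h1
  rw [h2, bn_succ]
  field_simp
  ring

def In4 (ρ : ℚ) : Prop := ∀ i : ℕ, ∃ z : ℤ, 4 ^ i * bn ρ i = z

lemma in4_base : In4 (-(1 / 2)) := by
  intro i
  refine ⟨(-1) ^ i * i.centralBinom, ?_⟩
  induction i with
  | zero => simp [bn]
  | succ i ih =>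
    have h1 : ((i : ℚ) + 1) * ((i + 1).centralBinom : ℚ) = 2 * (2 * i + 1) * (i.centralBinom : ℚ) := by
      exact_mod_cast Nat.succ_mul_centralBinom_succ i
    have h2 : ((i : ℚ) + 1) ≠ 0 := by positivity
    push_cast at ih ⊢
    rw [bn_succ]
    apply mul_left_cancel₀ h2
    calc ((i : ℚ) + 1) * (4 ^ (i + 1) * (bn (-(1 / 2)) i * ((-(1 / 2) - i) / (i + 1))))
        = (4 ^ i * bn (-(1 / 2)) i) * (4 * (-(1 / 2) - i)) := by
          field_simp
          ring
      _ = _ := by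
          rw [ih, pow_succ]
          linear_combination ((-1 : ℚ) ^ i) * h1

lemma in4_up {ρ : ℚ} (h : In4 ρ) : In4 (ρ + 1) := by
  intro i
  rcases i with _ | i
  · exact ⟨1, by simp [bn]⟩
  · obtain ⟨z, hz⟩ := h (i + 1)
    obtain ⟨w, hw⟩ := h i
    refine ⟨z + 4 * w, ?_⟩
    rw [bn_pascal, mul_add, hz]
    push_cast
    rw [← hw]
    ring

lemma in4_down {ρ : ℚ} (h : In4 (ρ + 1)) : In4 ρ := by
  intro i
  induction i with
  | zero => exact ⟨1, by simp [bn]⟩
  | succ i ih =>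
    obtain ⟨z, hz⟩ := h (i + 1)
    obtain ⟨w, hw⟩ := ih
    refine ⟨z - 4 * w, ?_⟩
    rw [bn_pascal, mul_add] at hz
    push_cast
    rw [← hw, ← hz]
    ring

lemma in4_odd {a : ℤ} (ha : Odd a) : In4 ((a : ℚ) / 2) := by
  obtain ⟨t, rfl⟩ := ha
  have h1 : ∀ t : ℤ, In4 ((t : ℚ) + 1 / 2) := by
    intro t
    induction t using Int.induction_on with
    | zero =>
      have := in4_up in4_base
      rwa [show (-(1 / 2) + 1 : ℚ) = ((0 : ℤ) : ℚ) + 1 / 2 by norm_num] at this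
    | succ t ih =>
      have := in4_up ih
      rwa [show ((t : ℤ) : ℚ) + 1 / 2 + 1 = (((t : ℤ) + 1 : ℤ) : ℚ) + 1 / 2 by push_cast; ring] at this
    | pred t ih =>
      apply in4_down
      rwa [show ((-(t : ℤ) - 1 : ℤ) : ℚ) + 1 / 2 + 1 = ((-(t : ℤ) : ℤ) : ℚ) + 1 / 2 by push_cast; ring]
  have := h1 t
  rwa [show (((2 * t + 1 : ℤ)) : ℚ) / 2 = (t : ℚ) + 1 / 2 by push_cast; ring]

lemma bn_size {ρ e : ℚ} (h : |ρ| ≤ e) (i : ℕ) : |bn ρ i| ≤ (1 + e) ^ i := by
  have he : 0 ≤ e := (abs_nonneg _).trans h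
  induction i with
  | zero => simp [bn]
  | succ i ih =>
    rw [bn_succ, abs_mul, pow_succ]
    refine mul_le_mul ih ?_ (abs_nonneg _) (by positivity)
    rw [abs_div, abs_of_nonneg (by positivity : (0 : ℚ) ≤ (i : ℚ) + 1), div_le_iff₀ (by positivity)]
    have h1 : |ρ - i| ≤ |ρ| + i := by
      have := abs_sub ρ (i : ℚ)
      rwa [abs_of_nonneg (by positivity : (0 : ℚ) ≤ (i : ℚ))] at this
    have h2 : 0 ≤ e * i := by positivity
    nlinarith

/-! ## the coefficients `g(s, b)` -/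

noncomputable def Us (ρ : ℚ) : ℚ⟦X⟧ := PowerSeries.mk (bn (-ρ))
noncomputable def Vs (ρ : ℚ) : ℚ⟦X⟧ := PowerSeries.mk (bn (ρ - 1))
noncomputable def Is (ρ : ℚ) (b : ℕ) : ℚ⟦X⟧ :=
  PowerSeries.mk fun m => if m ≤ b then 0 else bn (ρ - 1) (m - b - 1) / m
noncomputable def gs (ρ : ℚ) (b s : ℕ) : ℚ := coeff s (Us ρ * Is ρ b)

lemma coeff_one_add_X_mul_deriv (f : ℚ⟦X⟧) (m : ℕ) :
    coeff m ((1 + X) * d⁄dX ℚ f) = ((m : ℚ) + 1) * coeff (m + 1) f + m * coeff m f := by
  rw [add_mul, one_mul, map_add, coeff_derivative]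
  rcases m with _ | m
  · rw [coeff_zero_X_mul]; push_cast; ring
  · rw [coeff_succ_X_mul, coeff_derivative]; push_cast; ring

lemma mk_ode (σ : ℚ) : (1 + X) * d⁄dX ℚ (PowerSeries.mk (bn σ)) = PowerSeries.C σ * PowerSeries.mk (bn σ) := by
  ext m
  rw [coeff_one_add_X_mul_deriv, coeff_C_mul, coeff_mk, coeff_mk, bn_succ]
  have h1 : ((m : ℚ) + 1) ≠ 0 := by positivity
  field_simp
  ring

lemma UV (ρ : ℚ) : (1 + X) * (Us ρ * Vs ρ) = 1 := by
  have hU := mk_ode (-ρ)
  have hV := mk_ode (ρ - 1)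
  apply PowerSeries.derivative.ext
  · rw [Derivation.leibniz, Derivation.leibniz]
    simp only [smul_eq_mul, map_add, Derivation.map_one_eq_zero, zero_add]
    rw [show (d⁄dX ℚ (X : ℚ⟦X⟧)) = 1 from PowerSeries.derivative_X ..]
    have e1 : (1 + X) * (Us ρ * d⁄dX ℚ (Vs ρ) + Vs ρ * d⁄dX ℚ (Us ρ)) + Us ρ * Vs ρ * 1 =
        Us ρ * ((1 + X) * d⁄dX ℚ (Vs ρ)) + Vs ρ * ((1 + X) * d⁄dX ℚ (Us ρ)) + Us ρ * Vs ρ := by ring
    rw [e1]
    unfold Us Vs
    rw [hU, hV, map_sub, map_neg, map_one]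
    ring
  · rw [map_mul, map_mul, map_add]
    unfold Us Vs
    rw [← coeff_zero_eq_constantCoeff_apply (φ := PowerSeries.mk (bn (-ρ))),
      ← coeff_zero_eq_constantCoeff_apply (φ := PowerSeries.mk (bn (ρ - 1))), coeff_mk, coeff_mk, bn_zero, bn_zero]
    simp

lemma Is_der (ρ : ℚ) (b : ℕ) : d⁄dX ℚ (Is ρ b) = X ^ b * Vs ρ := by
  ext m
  rw [coeff_derivative, coeff_X_pow_mul']
  unfold Is Vs
  rw [coeff_mk]
  by_cases hm : b ≤ m
  · rw [if_neg (by omega), if_pos hm, coeff_mk, show m + 1 - b - 1 = m - b by omega]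
    have h1 : ((m : ℚ) + 1) ≠ 0 := by positivity
    push_cast
    field_simp
  · rw [if_pos (by omega), if_neg hm, zero_mul]

lemma F_ode (ρ : ℚ) (b : ℕ) :
    (1 + X) * d⁄dX ℚ (Us ρ * Is ρ b) = - PowerSeries.C ρ * (Us ρ * Is ρ b) + X ^ b := by
  have hU : (1 + X) * d⁄dX ℚ (Us ρ) = PowerSeries.C (-ρ) * Us ρ := mk_ode (-ρ)
  rw [Derivation.leibniz]
  simp only [smul_eq_mul]
  rw [Is_der]
  rw [map_neg] at hU
  linear_combination Is ρ b * hU + X ^ b * UV ρ

lemma gs_rec (ρ : ℚ) (b s : ℕ) :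
    ((s : ℚ) + 1) * gs ρ b (s + 1) = - (s + ρ) * gs ρ b s + if s = b then 1 else 0 := by
  have h := congrArg (coeff s) (F_ode ρ b)
  rw [coeff_one_add_X_mul_deriv, map_add, coeff_X_pow, ← map_neg, coeff_C_mul] at h
  unfold gs
  linear_combination h

lemma gs_zero_of_le (ρ : ℚ) {b s : ℕ} (h : s ≤ b) : gs ρ b s = 0 := by
  unfold gs
  rw [coeff_mul]
  refine Finset.sum_eq_zero fun p hp => ?_
  rw [Finset.HasAntidiagonal.mem_antidiagonal] at hp
  unfold Is
  rw [coeff_mk, if_pos (by omega), mul_zero]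

lemma gs_size {ρ e : ℚ} (h : |ρ| ≤ e) (b s : ℕ) : |gs ρ b s| ≤ (2 + e) ^ s := by
  have he : 0 ≤ e := (abs_nonneg _).trans h
  induction s with
  | zero => rw [gs_zero_of_le ρ (Nat.zero_le b)]; simp
  | succ s ih =>
    have h0 : (0 : ℚ) < (s : ℚ) + 1 := by positivity
    have h1 : ((s : ℚ) + 1) * |gs ρ b (s + 1)| ≤ (s + e) * (2 + e) ^ s + 1 := by
      calc ((s : ℚ) + 1) * |gs ρ b (s + 1)| = |((s : ℚ) + 1) * gs ρ b (s + 1)| := by
            rw [abs_mul, abs_of_pos h0]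
        _ = |- (s + ρ) * gs ρ b s + if s = b then 1 else 0| := by rw [gs_rec]
        _ ≤ |- (s + ρ) * gs ρ b s| + |if s = b then (1 : ℚ) else 0| := abs_add_le _ _
        _ ≤ (s + e) * (2 + e) ^ s + 1 := by
            refine add_le_add ?_ ?_
            · rw [abs_mul, abs_neg]
              refine mul_le_mul ?_ ih (abs_nonneg _) (by positivity)
              have := abs_add_le (s : ℚ) ρ
              rw [abs_of_nonneg (by positivity : (0 : ℚ) ≤ (s : ℚ))] at this
              linarith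
            · split_ifs <;> simp
    have h2 : (1 : ℚ) ≤ (2 + e) ^ s := one_le_pow₀ (by linarith)
    have h3 : (s + e) * (2 + e) ^ s + 1 ≤ ((s : ℚ) + 1) * (2 + e) ^ (s + 1) := by
      rw [pow_succ]
      have h4 : (0 : ℚ) ≤ s := by positivity
      have h5 : 0 ≤ (s : ℚ) * e := by positivity
      have h6 : (s + e) * (2 + e) ^ s + 1 ≤ (s + e + 1) * (2 + e) ^ s := by linarith
      have h7 : (s + e + 1) * (2 + e) ^ s ≤ ((s : ℚ) + 1) * (2 + e) * (2 + e) ^ s := by
        refine mul_le_mul_of_nonneg_right ?_ (by positivity)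
        nlinarith
      linarith
    exact le_of_mul_le_mul_left (h1.trans h3) h0

lemma gs_int {a : ℤ} (ha : Odd a) {b s k : ℕ} (hs : s ≤ k) :
    ∃ z : ℤ, ((4 ^ k * Nat.lcmUpto k : ℕ) : ℚ) * gs ((a : ℚ) / 2) b s = z := by
  have h1 : In4 (-((a : ℚ) / 2)) := by
    have := in4_odd (a := -a) ha.neg
    rwa [show (((-a : ℤ)) : ℚ) / 2 = -((a : ℚ) / 2) by push_cast; ring] at this
  have h2 : In4 ((a : ℚ) / 2 - 1) := by
    have := in4_odd (a := a - 2) (by
      obtain ⟨t, rfl⟩ := ha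
      exact ⟨t - 1, by ring⟩)
    rwa [show (((a - 2 : ℤ)) : ℚ) / 2 = (a : ℚ) / 2 - 1 by push_cast; ring] at this
  have h3 : ∀ p ∈ antidiagonal s, ∃ z : ℤ, ((4 ^ k * Nat.lcmUpto k : ℕ) : ℚ) *
      (coeff p.1 (Us ((a : ℚ) / 2)) * coeff p.2 (Is ((a : ℚ) / 2) b)) = z := by
    intro p hp
    rw [Finset.HasAntidiagonal.mem_antidiagonal] at hp
    unfold Us Is
    rw [coeff_mk, coeff_mk]
    split_ifs with hb
    · exact ⟨0, by simp⟩
    · obtain ⟨z, hz⟩ := h1 p.1
      obtain ⟨w, hw⟩ := h2 (p.2 - b - 1)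
      obtain ⟨c, hc⟩ := lcm_div (j := p.2) (n := k) (by omega) (by omega)
      obtain ⟨r, hr⟩ : ∃ r, k = p.1 + (p.2 - b - 1) + r := ⟨k - (p.1 + (p.2 - b - 1)), by omega⟩
      refine ⟨4 ^ r * z * w * c, ?_⟩
      push_cast
      rw [← hz, ← hw, ← hc]
      have e1 : (4 : ℚ) ^ k = 4 ^ p.1 * 4 ^ (p.2 - b - 1) * 4 ^ r := by
        rw [← pow_add, ← pow_add, ← hr]
      rw [e1]
      ring
  choose! z hz using h3
  refine ⟨∑ p ∈ antidiagonal s, z p, ?_⟩
  unfold gs
  rw [coeff_mul, Finset.mul_sum]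
  push_cast
  exact Finset.sum_congr rfl fun p hp => by rw [← hz p hp]; push_cast; ring

/-! ## the derivatives of a solution -/

lemma coeff_th (s m : ℕ) (f : ℚ⟦X⟧) : coeff m (X ^ s * hd s f) = (m.choose s : ℚ) * coeff m f := by
  rw [coeff_X_pow_mul']
  split_ifs with h
  · rw [coeff_hd, show m - s + s = m by omega]
  · rw [Nat.choose_eq_zero_of_lt (by omega)]
    simp

lemma coeff_Xd (m : ℕ) (f : ℚ⟦X⟧) : coeff m (X * d⁄dX ℚ f) = (m : ℚ) * coeff m f := by
  rcases m with _ | m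
  · rw [coeff_zero_X_mul]; simp
  · rw [coeff_succ_X_mul, coeff_derivative]; push_cast; ring

lemma coeff_ode {a : ℤ} {h r : ℚ⟦X⟧} (hh : 2 * (X * d⁄dX ℚ h) + (a : ℚ⟦X⟧) * h = 2 * r) (m : ℕ) :
    (2 * (m : ℚ) + a) * coeff m h = 2 * coeff m r := by
  have h1 := congrArg (coeff m) hh
  have e2 : (2 : ℚ⟦X⟧) = PowerSeries.C (2 : ℚ) := (map_ofNat (PowerSeries.C (R := ℚ)) 2).symm
  have e3 : (a : ℚ⟦X⟧) = PowerSeries.C (a : ℚ) := by simp
  rw [e2, e3, map_add, coeff_C_mul, coeff_C_mul, coeff_C_mul, coeff_Xd] at h1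
  linear_combination h1

lemma key {a : ℤ} {h r : ℚ⟦X⟧} (hh : 2 * (X * d⁄dX ℚ h) + (a : ℚ⟦X⟧) * h = 2 * r) (s : ℕ) :
    X ^ s * hd s h = PowerSeries.C (bn (-((a : ℚ) / 2)) s) * h +
      ∑ b ∈ Finset.range s, PowerSeries.C (gs ((a : ℚ) / 2) b s) * (X ^ b * hd b r) := by
  ext m
  have h1 := coeff_ode hh m
  have h2 : ∀ b, coeff m (PowerSeries.C (gs ((a : ℚ) / 2) b s) * (X ^ b * hd b r)) =
      gs ((a : ℚ) / 2) b s * ((m.choose b : ℚ) * coeff m r) := fun b => by rw [coeff_C_mul, coeff_th]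
  rw [coeff_th, map_add, coeff_C_mul, map_sum, Finset.sum_congr rfl fun b _ => h2 b]
  clear h2
  set ρ : ℚ := (a : ℚ) / 2 with hρ
  have ha : (a : ℚ) = 2 * ρ := by rw [hρ]; ring
  rw [ha] at h1
  clear_value ρ
  induction s with
  | zero => simp [bn]
  | succ s ih =>
    have h0 : ((s : ℚ) + 1) ≠ 0 := by positivity
    apply mul_left_cancel₀ h0
    have e1 : ((s : ℚ) + 1) * ((m.choose (s + 1) : ℚ) * coeff m h) =
        ((m : ℚ) - s) * ((m.choose s : ℚ) * coeff m h) := by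
      have : ((m.choose (s + 1) : ℚ)) * ((s : ℚ) + 1) = (m.choose s : ℚ) * ((m : ℚ) - s) := by
        by_cases hms : s ≤ m
        · have := Nat.choose_succ_right_eq m s
          rw [← Nat.cast_sub hms]
          exact_mod_cast this
        · rw [Nat.choose_eq_zero_of_lt (by omega), Nat.choose_eq_zero_of_lt (by omega)]
          simp
      linear_combination coeff m h * this
    have e2 : ((s : ℚ) + 1) * bn (-ρ) (s + 1) = - (s + ρ) * bn (-ρ) s := by
      rw [bn_succ]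
      field_simp
      ring
    have e3 : ((s : ℚ) + 1) * ∑ b ∈ Finset.range (s + 1), gs ρ b (s + 1) * ((m.choose b : ℚ) * coeff m r) =
        - (s + ρ) * ∑ b ∈ Finset.range s, gs ρ b s * ((m.choose b : ℚ) * coeff m r) +
          (m.choose s : ℚ) * coeff m r := by
      rw [Finset.sum_range_succ, mul_add, Finset.mul_sum, Finset.mul_sum]
      have e4 : ∀ b ∈ Finset.range s, ((s : ℚ) + 1) * (gs ρ b (s + 1) * ((m.choose b : ℚ) * coeff m r)) =
          - (s + ρ) * (gs ρ b s * ((m.choose b : ℚ) * coeff m r)) := by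
        intro b hb
        rw [Finset.mem_range] at hb
        have := gs_rec ρ b s
        rw [if_neg (by omega), add_zero] at this
        linear_combination ((m.choose b : ℚ) * coeff m r) * this
      have e5 : ((s : ℚ) + 1) * gs ρ s (s + 1) = 1 := by
        rw [gs_rec, if_pos rfl, gs_zero_of_le ρ le_rfl]
        ring
      rw [Finset.sum_congr rfl e4]
      linear_combination ((m.choose s : ℚ) * coeff m r) * e5
    linear_combination e1 - (coeff m h) * e2 - e3 + (m.choose s : ℚ) / 2 * h1 - (s + ρ) * ih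

/-! ## the rows -/

lemma one_le_two_pow (n : ℕ) : (1 : ℝ) ≤ 2 ^ n := one_le_pow₀ (by norm_num)

lemma Dm_T {q : ℕ} {C : ℝ} (hC : 1 ≤ C) {T : Polynomial ℤ} (hTd : T.natDegree ≤ q)
    (hTc : ∀ l, |((T.coeff l : ℤ) : ℝ)| ≤ C) : Dm T (2 ^ q * C) :=
  (Dm.of_bound hTd (by linarith) fun l _ => hTc l).mono
    (mul_le_mul_of_nonneg_right (succ_le_two_pow q) (by linarith))

lemma Dm_hasse {q' : ℕ} {C : ℝ} (hC : 1 ≤ C) {P : Polynomial ℤ} (hP1 : P.natDegree ≤ q')
    (hP2 : ∀ l, |((P.coeff l : ℤ) : ℝ)| ≤ C) (u : ℕ) :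
    Dm (Polynomial.hasseDeriv u P) (2 ^ (2 * q') * C) := by
  have h1 : (Polynomial.hasseDeriv u P).natDegree ≤ q' :=
    (Polynomial.natDegree_hasseDeriv_le P u).trans (by omega)
  refine (Dm.of_bound (B := 2 ^ q' * C) h1 (by positivity) fun l _ => ?_).mono ?_
  · rw [Polynomial.hasseDeriv_coeff]
    push_cast
    rw [abs_mul]
    by_cases hl : l + u ≤ q'
    · refine mul_le_mul ?_ (hP2 _) (abs_nonneg _) (by positivity)
      rw [abs_of_nonneg (by positivity)]
      have h2 : (l + u).choose u ≤ 2 ^ q' := (Nat.choose_le_two_pow _ _).trans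
        (Nat.pow_le_pow_right (by norm_num) hl)
      exact_mod_cast h2
    · rw [Polynomial.coeff_eq_zero_of_natDegree_lt (by omega)]
      simp only [Int.cast_zero, abs_zero, mul_zero]
      positivity
  · rw [two_mul, pow_add, mul_assoc]
    exact mul_le_mul_of_nonneg_right (succ_le_two_pow q') (by positivity)

variable {ι κ : Type} [Fintype ι] [Fintype κ]

lemma Qrow {N q q' k g : ℕ} {C : ℝ} {T : Polynomial ℤ} {y : ι → ℚ⟦X⟧} (hC : 1 ≤ C)
    (hN : Fintype.card ι ≤ N) (hTd : T.natDegree ≤ q) (hTc : ∀ l, |((T.coeff l : ℤ) : ℝ)| ≤ C)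
    {G : ℕ → ι → ι → Polynomial ℤ} (hG1 : ∀ s ≤ k, ∀ i j, (G s i j).natDegree ≤ q * s)
    (hG2 : ∀ s ≤ k, ∀ i j l, |(((G s i j).coeff l : ℤ) : ℝ)| ≤ C ^ (k + 1))
    (hG3 : ∀ s ≤ k, ∀ i, (g : ℚ⟦X⟧) * (ps T ^ s * hd s (y i)) = ∑ j, ps (G s i j) * y j)
    {P : ι → Polynomial ℤ} (hP1 : ∀ i, (P i).natDegree ≤ q') (hP2 : ∀ i l, |(((P i).coeff l : ℤ) : ℝ)| ≤ C)
    {b : ℕ} (hb : b ≤ k) :
    ∃ Q : ι → Polynomial ℤ, (∀ j, (Q j).natDegree ≤ q * b + q') ∧
      (∀ j, Dm (Q j) (N * ((b + 1) * ((2 ^ q * C) ^ b * (2 ^ (2 * q') * C) * ((2 ^ q) ^ k * C ^ (k + 1)))))) ∧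
      (g : ℚ⟦X⟧) * (ps T ^ b * hd b (∑ i, ps (P i) * y i)) = ∑ j, ps (Q j) * y j := by
  refine ⟨fun j => ∑ i, ∑ p ∈ antidiagonal b, T ^ p.1 * Polynomial.hasseDeriv p.1 (P i) * G p.2 i j, ?_, ?_, ?_⟩
  · intro j
    refine Polynomial.natDegree_sum_le_of_forall_le _ _ fun i _ =>
      Polynomial.natDegree_sum_le_of_forall_le _ _ fun p hp => ?_
    rw [Finset.HasAntidiagonal.mem_antidiagonal] at hp
    refine Polynomial.natDegree_mul_le.trans ?_
    have e1 : (T ^ p.1 * Polynomial.hasseDeriv p.1 (P i)).natDegree ≤ q * p.1 + q' := by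
      refine Polynomial.natDegree_mul_le.trans (add_le_add ?_ ?_)
      · refine Polynomial.natDegree_pow_le.trans ?_
        rw [mul_comm]
        exact Nat.mul_le_mul_right _ hTd
      · exact (Polynomial.natDegree_hasseDeriv_le _ _).trans ((Nat.sub_le _ _).trans (hP1 i))
    refine (add_le_add e1 (hG1 p.2 (by omega) i j)).trans (le_of_eq ?_)
    rw [← hp]
    ring
  · intro j
    have hq1 : (1 : ℝ) ≤ 2 ^ q * C := by
      have := one_le_two_pow q
      nlinarith
    have h1 : ∀ i, ∀ p ∈ antidiagonal b, Dm (T ^ p.1 * Polynomial.hasseDeriv p.1 (P i) * G p.2 i j)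
        ((2 ^ q * C) ^ b * (2 ^ (2 * q') * C) * ((2 ^ q) ^ k * C ^ (k + 1))) := by
      intro i p hp
      rw [Finset.HasAntidiagonal.mem_antidiagonal] at hp
      have e1 := (Dm_T hC hTd hTc).pow p.1
      have e2 := Dm_hasse hC (hP1 i) (hP2 i) p.1
      have e3 : Dm (G p.2 i j) ((2 ^ q) ^ k * C ^ (k + 1)) := by
        refine (Dm.of_bound (hG1 p.2 (by omega) i j) (by positivity) fun l _ => hG2 p.2 (by omega) i j l).mono ?_
        refine mul_le_mul_of_nonneg_right ?_ (by positivity)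
        refine (succ_le_two_pow (q * p.2)).trans ?_
        rw [← pow_mul]
        exact pow_le_pow_right₀ (by norm_num) (Nat.mul_le_mul_left _ (by omega))
      refine ((e1.mul e2).mul e3).mono ?_
      refine mul_le_mul_of_nonneg_right (mul_le_mul_of_nonneg_right ?_ (by positivity)) (by positivity)
      exact pow_le_pow_right₀ hq1 (by omega)
    have h2 := Dm.sum (Finset.univ : Finset ι) fun i _ => Dm.sum (antidiagonal b) (h1 i)
    refine h2.mono ?_
    rw [Finset.sum_const, Finset.sum_const, Finset.Nat.card_antidiagonal, Finset.card_univ, nsmul_eq_mul,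
      nsmul_eq_mul]
    push_cast
    refine mul_le_mul_of_nonneg_right ?_ (by positivity)
    exact_mod_cast hN
  · rw [hd_sum, Finset.mul_sum, Finset.mul_sum]
    have h1 : ∀ i ∈ (Finset.univ : Finset ι), (g : ℚ⟦X⟧) * (ps T ^ b * hd b (ps (P i) * y i)) =
        ∑ j, ps (∑ p ∈ antidiagonal b, T ^ p.1 * Polynomial.hasseDeriv p.1 (P i) * G p.2 i j) * y j := by
      intro i _
      rw [hd_mul, Finset.mul_sum, Finset.mul_sum]
      have h2 : ∀ p ∈ antidiagonal b, (g : ℚ⟦X⟧) * (ps T ^ b * (hd p.1 (ps (P i)) * hd p.2 (y i))) =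
          ∑ j, ps (T ^ p.1 * Polynomial.hasseDeriv p.1 (P i) * G p.2 i j) * y j := by
        intro p hp
        rw [Finset.HasAntidiagonal.mem_antidiagonal] at hp
        have h3 : (g : ℚ⟦X⟧) * (ps T ^ b * (hd p.1 (ps (P i)) * hd p.2 (y i))) =
            ps T ^ p.1 * hd p.1 (ps (P i)) * ((g : ℚ⟦X⟧) * (ps T ^ p.2 * hd p.2 (y i))) := by
          rw [← hp, pow_add]
          ring
        rw [h3, hG3 p.2 (by omega) i, Finset.mul_sum]
        refine Finset.sum_congr rfl fun j _ => ?_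
        rw [ps_mul, ps_mul, ps_pow, ps_hasse]
        ring
      rw [Finset.sum_congr rfl h2, Finset.sum_comm]
      refine Finset.sum_congr rfl fun j _ => ?_
      rw [ps_sum, Finset.sum_mul]
    rw [Finset.sum_congr rfl h1, Finset.sum_comm]
    refine Finset.sum_congr rfl fun j _ => ?_
    rw [ps_sum, Finset.sum_mul]

lemma ps_X : ps Polynomial.X = (X : ℚ⟦X⟧) := by
  have := ps_X_pow 1
  rwa [pow_one, pow_one] at this

lemma Hrow {N q q' e k g : ℕ} {C : ℝ} {T : Polynomial ℤ} {y : ι → ℚ⟦X⟧} (hC : 1 ≤ C)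
    (hN : Fintype.card ι ≤ N) (hTd : T.natDegree ≤ q) (hTc : ∀ l, |((T.coeff l : ℤ) : ℝ)| ≤ C)
    {G : ℕ → ι → ι → Polynomial ℤ} (hG1 : ∀ s ≤ k, ∀ i j, (G s i j).natDegree ≤ q * s)
    (hG2 : ∀ s ≤ k, ∀ i j l, |(((G s i j).coeff l : ℤ) : ℝ)| ≤ C ^ (k + 1))
    (hG3 : ∀ s ≤ k, ∀ i, (g : ℚ⟦X⟧) * (ps T ^ s * hd s (y i)) = ∑ j, ps (G s i j) * y j)
    {P : ι → Polynomial ℤ} (hP1 : ∀ i, (P i).natDegree ≤ q') (hP2 : ∀ i l, |(((P i).coeff l : ℤ) : ℝ)| ≤ C)
    {a : ℤ} (ha : Odd a) (hae : |a| ≤ e) {h : ℚ⟦X⟧}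
    (hh : 2 * (X * d⁄dX ℚ h) + (a : ℚ⟦X⟧) * h = 2 * ∑ i, ps (P i) * y i) {s : ℕ} (hs : s ≤ k) :
    ∃ (S : ι → Polynomial ℤ) (z : ℤ), (∀ j, (S j).natDegree ≤ (q + q' + 1) * s) ∧
      (∀ j, Dm (S j) (s * (((4 ^ k * Nat.lcmUpto k : ℕ) : ℝ) * (2 + e) ^ s * ((2 ^ q * C) ^ s *
        (N * (s * (2 ^ (2 * q') * C * ((2 ^ q) ^ k * C ^ (k + 1))))))))) ∧
      |(z : ℝ)| ≤ ((4 ^ k * Nat.lcmUpto k : ℕ) : ℝ) * (1 + e) ^ s ∧
      ((4 ^ k * Nat.lcmUpto k : ℕ) : ℚ⟦X⟧) * ((g : ℚ⟦X⟧) * (ps (Polynomial.X * T) ^ s * hd s h)) =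
        ∑ j, ps (S j) * y j + ps (Polynomial.C ((g : ℤ) * z) * T ^ s) * h := by
  set D : ℕ := 4 ^ k * Nat.lcmUpto k with hD
  have hρ : |((a : ℚ) / 2)| ≤ (e : ℚ) := by
    rw [abs_div, abs_of_pos (by norm_num : (0 : ℚ) < 2)]
    have h1 : (|a| : ℚ) ≤ e := by exact_mod_cast hae
    have h2 : (0 : ℚ) ≤ |(a : ℚ)| := abs_nonneg _
    linarith
  choose! Q hQ1 hQ2 hQ3 using fun b (hb : b ≤ k) =>
    Qrow hC hN hTd hTc hG1 hG2 hG3 hP1 hP2 (b := b) hb
  choose z hz using fun b => gs_int ha (b := b) (s := s) (k := k) hs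
  -- the coefficient of `h`
  obtain ⟨z0, hz0⟩ : ∃ z0 : ℤ, (D : ℚ) * bn (-((a : ℚ) / 2)) s = z0 := by
    have h1 : In4 (-((a : ℚ) / 2)) := by
      have := in4_odd (a := -a) ha.neg
      rwa [show (((-a : ℤ)) : ℚ) / 2 = -((a : ℚ) / 2) by push_cast; ring] at this
    obtain ⟨w, hw⟩ := h1 s
    obtain ⟨r, hr⟩ : ∃ r, k = s + r := ⟨k - s, by omega⟩
    refine ⟨4 ^ r * Nat.lcmUpto k * w, ?_⟩
    rw [hD]
    push_cast
    rw [← hw]
    have e1 : (4 : ℚ) ^ k = 4 ^ s * 4 ^ r := by rw [← pow_add, ← hr]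
    rw [e1]
    ring
  have hzb : ∀ b, |(z b : ℝ)| ≤ (D : ℝ) * (2 + e) ^ s := by
    intro b
    have h1 := gs_size hρ b s
    have h2 : |(z b : ℚ)| ≤ (D : ℚ) * (2 + e) ^ s := by
      rw [← hz b, abs_mul, abs_of_nonneg (by positivity : (0 : ℚ) ≤ ((4 ^ k * Nat.lcmUpto k : ℕ) : ℚ))]
      exact mul_le_mul_of_nonneg_left h1 (by positivity)
    exact_mod_cast h2
  refine ⟨fun j => ∑ b ∈ Finset.range s, Polynomial.C (z b) * (Polynomial.X ^ b * T ^ (s - b) * Q b j), z0,
    ?_, ?_, ?_, ?_⟩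
  · intro j
    refine Polynomial.natDegree_sum_le_of_forall_le _ _ fun b hb => ?_
    rw [Finset.mem_range] at hb
    refine (Polynomial.natDegree_C_mul_le _ _).trans (Polynomial.natDegree_mul_le.trans ?_)
    have e1 : (Polynomial.X ^ b * T ^ (s - b)).natDegree ≤ b + q * (s - b) := by
      refine Polynomial.natDegree_mul_le.trans (add_le_add ?_ ?_)
      · rw [Polynomial.natDegree_X_pow]
      · refine Polynomial.natDegree_pow_le.trans ?_
        rw [mul_comm]
        exact Nat.mul_le_mul_right _ hTd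
    refine (add_le_add e1 (hQ1 b (by omega) j)).trans ?_
    obtain ⟨r, rfl⟩ : ∃ r, s = b + 1 + r := ⟨s - (b + 1), by omega⟩
    rw [show b + 1 + r - b = 1 + r by omega]
    nlinarith [Nat.zero_le (q' * (b + r))]
  · intro j
    have h1 : ∀ b ∈ Finset.range s, Dm (Polynomial.C (z b) * (Polynomial.X ^ b * T ^ (s - b) * Q b j))
        ((D : ℝ) * (2 + e) ^ s * ((2 ^ q * C) ^ s *
          (N * (s * (2 ^ (2 * q') * C * ((2 ^ q) ^ k * C ^ (k + 1))))))) := by
      intro b hb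
      rw [Finset.mem_range] at hb
      have e0 : Dm (Polynomial.C (z b)) ((D : ℝ) * (2 + e) ^ s) := by
        refine ⟨Polynomial.C ((D : ℝ) * (2 + e) ^ s), fun l => ?_, by simp⟩
        rw [Polynomial.coeff_C, Polynomial.coeff_C]
        split_ifs
        · exact hzb b
        · simp
      have e1 : Dm (Polynomial.X ^ b : Polynomial ℤ) 1 := by
        refine ⟨Polynomial.X ^ b, fun l => ?_, by simp⟩
        rw [Polynomial.coeff_X_pow, Polynomial.coeff_X_pow]
        split_ifs <;> simp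
      have e2 := (Dm_T hC hTd hTc).pow (s - b)
      have e3 := hQ2 b (by omega) j
      refine (e0.mul ((e1.mul e2).mul e3)).mono (mul_le_mul_of_nonneg_left ?_ (by positivity))
      rw [one_mul]
      have hb1 : (b : ℝ) + 1 ≤ s := by exact_mod_cast hb
      have e4 : (2 ^ q * C) ^ s = (2 ^ q * C) ^ (s - b) * (2 ^ q * C) ^ b := by
        rw [← pow_add]
        congr 1
        omega
      rw [e4]
      calc (2 ^ q * C) ^ (s - b) * (N * (((b : ℝ) + 1) * ((2 ^ q * C) ^ b * (2 ^ (2 * q') * C) *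
            ((2 ^ q) ^ k * C ^ (k + 1)))))
          = (2 ^ q * C) ^ (s - b) * (2 ^ q * C) ^ b * (N * (((b : ℝ) + 1) * (2 ^ (2 * q') * C *
            ((2 ^ q) ^ k * C ^ (k + 1))))) := by ring
        _ ≤ _ := by
            refine mul_le_mul_of_nonneg_left ?_ (by positivity)
            refine mul_le_mul_of_nonneg_left ?_ (by positivity)
            exact mul_le_mul_of_nonneg_right hb1 (by positivity)
    refine (Dm.sum _ h1).mono (le_of_eq ?_)
    rw [Finset.sum_const, Finset.card_range, nsmul_eq_mul]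
  · have h1 : |bn (-((a : ℚ) / 2)) s| ≤ (1 + (e : ℚ)) ^ s := bn_size (by rw [abs_neg]; exact hρ) s
    have h2 : |(z0 : ℚ)| ≤ (D : ℚ) * (1 + e) ^ s := by
      rw [← hz0, abs_mul, abs_of_nonneg (by positivity : (0 : ℚ) ≤ (D : ℚ))]
      exact mul_le_mul_of_nonneg_left h1 (by positivity)
    exact_mod_cast h2
  · have hk := key hh s
    have hCz : ∀ (w : ℤ) (x : ℚ), (D : ℚ) * x = w → (D : ℚ⟦X⟧) * PowerSeries.C x = (w : ℚ⟦X⟧) := by
      intro w x hx
      have e1 : (D : ℚ⟦X⟧) = PowerSeries.C (D : ℚ) := by simp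
      have e2 : (w : ℚ⟦X⟧) = PowerSeries.C (w : ℚ) := by simp
      rw [e1, e2, ← map_mul, hx]
    have e0 : (D : ℚ⟦X⟧) * ((g : ℚ⟦X⟧) * (ps (Polynomial.X * T) ^ s * hd s h)) =
        (g : ℚ⟦X⟧) * ps T ^ s * ((D : ℚ⟦X⟧) * (X ^ s * hd s h)) := by
      rw [ps_mul, ps_X, mul_pow]
      ring
    have e1 : (D : ℚ⟦X⟧) * (X ^ s * hd s h) = (z0 : ℚ⟦X⟧) * h +
        ∑ b ∈ Finset.range s, (z b : ℚ⟦X⟧) * (X ^ b * hd b (∑ i, ps (P i) * y i)) := by
      rw [hk, mul_add, ← mul_assoc, hCz z0 _ hz0, Finset.mul_sum]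
      congr 1
      refine Finset.sum_congr rfl fun b _ => ?_
      rw [← mul_assoc, hCz (z b) _ (hz b)]
    have e2 : ∀ b ∈ Finset.range s, (g : ℚ⟦X⟧) * ps T ^ s *
        ((z b : ℚ⟦X⟧) * (X ^ b * hd b (∑ i, ps (P i) * y i))) =
        ∑ j, ps (Polynomial.C (z b) * (Polynomial.X ^ b * T ^ (s - b) * Q b j)) * y j := by
      intro b hb
      rw [Finset.mem_range] at hb
      have e3 : (g : ℚ⟦X⟧) * ps T ^ s * ((z b : ℚ⟦X⟧) * (X ^ b * hd b (∑ i, ps (P i) * y i))) =
          (z b : ℚ⟦X⟧) * (X ^ b * ps T ^ (s - b)) *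
            ((g : ℚ⟦X⟧) * (ps T ^ b * hd b (∑ i, ps (P i) * y i))) := by
        have e4 : ps T ^ s = ps T ^ (s - b) * ps T ^ b := by
          rw [← pow_add]
          congr 1
          omega
        rw [e4]
        ring
      rw [e3, hQ3 b (by omega), Finset.mul_sum]
      refine Finset.sum_congr rfl fun j _ => ?_
      rw [ps_mul, ps_C, ps_mul, ps_mul, ps_X_pow, ps_pow]
      ring
    rw [e0, e1, mul_add, Finset.mul_sum, Finset.sum_congr rfl e2, Finset.sum_comm, add_comm]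
    congr 1
    · refine Finset.sum_congr rfl fun j _ => ?_
      rw [ps_sum, Finset.sum_mul]
    · rw [ps_mul, ps_C, ps_pow]
      push_cast
      ring

/-! ## sizes and denominators of the right hand side -/

lemma r_size {N : ℕ} {C : ℝ} {y : ι → ℚ⟦X⟧} (hC : 1 ≤ C) (hN : Fintype.card ι ≤ N)
    (hy : ∀ i m, |((coeff m (y i) : ℚ) : ℝ)| ≤ C ^ (m + 1)) {P : ι → Polynomial ℤ}
    (hP2 : ∀ i l, |(((P i).coeff l : ℤ) : ℝ)| ≤ C) (m : ℕ) :
    |((coeff m (∑ i, ps (P i) * y i) : ℚ) : ℝ)| ≤ N * ((m + 1) * (C * C ^ (m + 1))) := by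
  rw [map_sum]
  push_cast
  refine (Finset.abs_sum_le_sum_abs _ _).trans ?_
  have h1 : ∀ i ∈ (Finset.univ : Finset ι), |((coeff m (ps (P i) * y i) : ℚ) : ℝ)| ≤
      (m + 1) * (C * C ^ (m + 1)) := by
    intro i _
    rw [coeff_mul]
    push_cast
    refine (Finset.abs_sum_le_sum_abs _ _).trans ?_
    refine (Finset.sum_le_card_nsmul _ _ (C * C ^ (m + 1)) fun p hp => ?_).trans ?_
    · rw [Finset.HasAntidiagonal.mem_antidiagonal] at hp
      rw [abs_mul, coeff_ps]
      refine mul_le_mul ?_ ((hy i _).trans (pow_le_pow_right₀ hC (by omega))) (abs_nonneg _) (by linarith)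
      have := hP2 i p.1
      exact_mod_cast this
    · rw [nsmul_eq_mul, Finset.Nat.card_antidiagonal]
      push_cast
      exact le_rfl
  refine (Finset.sum_le_card_nsmul _ _ _ h1).trans ?_
  rw [nsmul_eq_mul, Finset.card_univ]
  refine mul_le_mul_of_nonneg_right ?_ (by positivity)
  exact_mod_cast hN

omit [Fintype κ] in
lemma r_den {d m : ℕ} {y : ι → ℚ⟦X⟧} (hd : ∀ i, ∀ j ≤ m, ∃ a : ℤ, (d : ℚ) * coeff j (y i) = a)
    (P : ι → Polynomial ℤ) (j : ℕ) (hj : j ≤ m) :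
    ∃ a : ℤ, (d : ℚ) * coeff j (∑ i, ps (P i) * y i) = a := by
  choose! a ha using hd
  refine ⟨∑ i, ∑ p ∈ antidiagonal j, (P i).coeff p.1 * a i p.2, ?_⟩
  rw [map_sum, Finset.mul_sum]
  push_cast
  refine Finset.sum_congr rfl fun i _ => ?_
  rw [coeff_mul, Finset.mul_sum]
  refine Finset.sum_congr rfl fun p hp => ?_
  rw [Finset.HasAntidiagonal.mem_antidiagonal] at hp
  rw [← ha i p.2 (by omega), coeff_ps]
  ring

theorem t_eint : Pool.Agent.Y916.Hy.S_eint := by
  classical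
  intro N q q' e
  refine ⟨40 + N + 2 * q + 2 * q' + 9 * e, ?_⟩
  intro ι κ _ _ C T y h hN hy hh
  set E : ℕ := 40 + N + 2 * q + 2 * q' + 9 * e with hE
  have hC := hy.one_le
  have hC0 : 0 < C := zero_lt_one.trans_le hC
  have h2C : 1 ≤ 2 * C := by linarith
  have pw : ∀ (A B : ℕ), A ≤ E → B ≤ E → ∀ m : ℕ, ((2 : ℝ) ^ A * C ^ B) ^ m ≤ ((2 * C) ^ E) ^ m := by
    intro A B hA hB m
    refine pow_le_pow_left₀ (by positivity) ?_ _
    rw [mul_pow]
    exact mul_le_mul (pow_le_pow_right₀ (by norm_num) hA) (pow_le_pow_right₀ hC hB) (by positivity)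
      (by positivity)
  have hCE : ∀ m : ℕ, C ^ m ≤ ((2 * C) ^ E) ^ m := by
    intro m
    have := pw 0 1 (by omega) (by omega) m
    simpa using this
  have hN2 : (N : ℝ) ≤ 2 ^ N := by
    have := succ_le_two_pow N
    linarith
  have he2 : (1 : ℝ) + e ≤ 2 ^ e := by
    have := succ_le_two_pow e
    linarith
  have hD : ∀ k : ℕ, ((4 ^ k * Nat.lcmUpto k : ℕ) : ℝ) ≤ (2 ^ 10) ^ (k + 1) := by
    intro k
    push_cast
    calc (4 : ℝ) ^ k * (Nat.lcmUpto k : ℝ) ≤ 4 ^ k * (2 ^ 8) ^ k :=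
          mul_le_mul_of_nonneg_left (lcm_bound k) (by positivity)
      _ = (2 ^ 10) ^ k := by rw [← mul_pow]; norm_num
      _ ≤ _ := pow_le_pow_right₀ (by norm_num) (by omega)
  refine ⟨one_le_pow₀ h2C, ?_, ?_, ?_, ?_, ?_⟩
  · refine Polynomial.natDegree_mul_le.trans ?_
    have := hy.degT
    rw [Polynomial.natDegree_X]
    omega
  · intro l
    have h1 : C ≤ (2 * C) ^ E := by simpa using hCE 1
    rcases l with _ | l
    · rw [Polynomial.coeff_X_mul_zero]
      simp only [Int.cast_zero, abs_zero]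
      positivity
    · rw [Polynomial.coeff_X_mul]
      exact (hy.sizeT l).trans h1
  · rintro (i | c) m
    · exact (hy.size i m).trans (hCE _)
    · show |((coeff m (h c) : ℚ) : ℝ)| ≤ _
      obtain ⟨a, P, ha, hae, hP1, hP2, hode⟩ := hh c
      have h1 := r_size hC hN hy.size hP2 m
      have h2 := coeff_ode hode m
      set r := ∑ i, ps (P i) * y i with hr
      have h3 : (1 : ℝ) ≤ |2 * (m : ℝ) + a| := by
        have h4 : (2 * (m : ℤ) + a) ≠ 0 := by
          obtain ⟨t, rfl⟩ := ha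
          omega
        have h5 : 1 ≤ |2 * (m : ℤ) + a| := Int.one_le_abs h4
        exact_mod_cast h5
      have h6 : |2 * (m : ℝ) + a| * |((coeff m (h c) : ℚ) : ℝ)| = 2 * |((coeff m r : ℚ) : ℝ)| := by
        have := congrArg (fun z : ℚ => |(z : ℝ)|) h2
        push_cast at this
        rw [abs_mul, abs_mul] at this
        rw [this, abs_of_pos (by norm_num : (0 : ℝ) < 2)]
      calc |((coeff m (h c) : ℚ) : ℝ)| ≤ |2 * (m : ℝ) + a| * |((coeff m (h c) : ℚ) : ℝ)| :=
            le_mul_of_one_le_left (abs_nonneg _) h3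
        _ = 2 * |((coeff m r : ℚ) : ℝ)| := h6
        _ ≤ 2 * (N * ((m + 1) * (C * C ^ (m + 1)))) := mul_le_mul_of_nonneg_left h1 (by norm_num)
        _ ≤ 2 ^ (m + 1) * ((2 ^ N) ^ (m + 1) * (2 ^ (m + 1) * (C ^ (m + 1) * C ^ (m + 1)))) := by
            have e1 : (2 : ℝ) ≤ 2 ^ (m + 1) := le_self_pow₀ (by norm_num) (by omega)
            have e2 : (N : ℝ) ≤ (2 ^ N) ^ (m + 1) :=
              hN2.trans (le_self_pow₀ (one_le_two_pow N) (by omega))
            have e3 : (m : ℝ) + 1 ≤ 2 ^ (m + 1) :=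
              (succ_le_two_pow m).trans (pow_le_pow_right₀ (by norm_num) (by omega))
            have e4 : C ≤ C ^ (m + 1) := le_self_pow₀ hC (by omega)
            gcongr
        _ = (2 ^ (N + 2) * C ^ 2) ^ (m + 1) := by
            rw [← mul_pow, ← mul_pow, ← mul_pow, ← mul_pow]
            congr 1
            ring
        _ ≤ _ := pw _ _ (by omega) (by omega) _
  · intro m
    obtain ⟨d, hd0, hd, hd'⟩ := hy.den m
    refine ⟨d * Nat.lcmUpto (2 * m + e), Nat.mul_pos hd0 (Nat.lcmUpto_pos _), ?_, ?_⟩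
    · push_cast
      calc (d : ℝ) * (Nat.lcmUpto (2 * m + e) : ℝ) ≤ C ^ (m + 1) * (2 ^ 8) ^ (2 * m + e) :=
            mul_le_mul hd (lcm_bound _) (by positivity) (by positivity)
        _ ≤ C ^ (m + 1) * ((2 ^ 8) ^ (2 + e)) ^ (m + 1) := by
            refine mul_le_mul_of_nonneg_left ?_ (by positivity)
            rw [← pow_mul ((2 : ℝ) ^ 8)]
            exact pow_le_pow_right₀ (by norm_num : (1 : ℝ) ≤ 2 ^ 8) (by nlinarith [Nat.zero_le (e * m)])
        _ = (2 ^ (8 * (2 + e)) * C ^ 1) ^ (m + 1) := by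
            rw [← mul_pow, ← pow_mul]
            congr 1
            ring
        _ ≤ _ := pw _ _ (by omega) (by omega) _
    · rintro (i | c) j hj
      · obtain ⟨a, ha⟩ := hd' i j hj
        refine ⟨Nat.lcmUpto (2 * m + e) * a, ?_⟩
        show ((d * Nat.lcmUpto (2 * m + e) : ℕ) : ℚ) * coeff j (y i) = _
        push_cast
        rw [← ha]
        ring
      · show ∃ a : ℤ, ((d * Nat.lcmUpto (2 * m + e) : ℕ) : ℚ) * coeff j (h c) = a
        obtain ⟨a, P, ha, hae, hP1, hP2, hode⟩ := hh c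
        have h2 := coeff_ode hode j
        obtain ⟨w, hw⟩ := r_den hd' P j hj
        have h4 : (2 * (j : ℤ) + a) ≠ 0 := by
          obtain ⟨t, rfl⟩ := ha
          omega
        have h5 : (2 * (j : ℤ) + a) ∣ (Nat.lcmUpto (2 * m + e) : ℤ) := by
          rw [← Int.natAbs_dvd]
          have h6 : (2 * (j : ℤ) + a).natAbs ∣ Nat.lcmUpto (2 * m + e) := by
            refine dvd_lcmUpto (Nat.one_le_iff_ne_zero.2 (Int.natAbs_ne_zero.2 h4)) ?_
            have h7 : |2 * (j : ℤ) + a| ≤ 2 * m + e := by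
              have h8 := abs_add_le (2 * (j : ℤ)) a
              rw [abs_of_nonneg (by positivity : (0 : ℤ) ≤ 2 * (j : ℤ))] at h8
              omega
            have h10 := Int.natCast_natAbs (2 * (j : ℤ) + a)
            rw [← h10] at h7
            exact_mod_cast h7
          exact_mod_cast h6
        obtain ⟨u, hu⟩ := h5
        have h9 : (Nat.lcmUpto (2 * m + e) : ℚ) = (2 * (j : ℚ) + a) * u := by exact_mod_cast hu
        refine ⟨2 * u * w, ?_⟩
        push_cast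
        rw [← hw, h9]
        linear_combination (d : ℚ) * u * h2
  · intro k
    obtain ⟨g, hg0, hg, hg'⟩ := hy.der k
    choose! G hG1 hG2 hG3 using hg'
    have hDk := hD k
    have hDpos : 0 < 4 ^ k * Nat.lcmUpto k := Nat.mul_pos (by positivity) (Nat.lcmUpto_pos k)
    refine ⟨4 ^ k * Nat.lcmUpto k * g, Nat.mul_pos hDpos hg0, ?_, ?_⟩
    · rw [Nat.cast_mul]
      calc ((4 ^ k * Nat.lcmUpto k : ℕ) : ℝ) * g ≤ (2 ^ 10) ^ (k + 1) * C ^ (k + 1) :=
            mul_le_mul hDk hg (by positivity) (by positivity)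
        _ = (2 ^ 10 * C ^ 1) ^ (k + 1) := by rw [← mul_pow, pow_one]
        _ ≤ _ := pw _ _ (by omega) (by omega) _
    · intro s hs
      choose a P ha hae hP1 hP2 hode using hh
      choose S z hS1 hS2 hz hS3 using fun c =>
        Hrow hC hN hy.degT hy.sizeT hG1 hG2 hG3 (hP1 c) (hP2 c) (ha c) (hae c) (hode c) hs
      set D : ℕ := 4 ^ k * Nat.lcmUpto k with hDd
      clear_value D
      refine ⟨Sum.elim (fun i => Sum.elim (fun j => Polynomial.C (D : ℤ) * (Polynomial.X ^ s * G s i j)) fun _ => 0)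
        (fun c => Sum.elim (S c) fun c' => if c' = c then Polynomial.C ((g : ℤ) * z c) * T ^ s else 0), ?_, ?_, ?_⟩
      · rintro (i | c) (j | c')
        · refine (Polynomial.natDegree_C_mul_le _ _).trans (Polynomial.natDegree_mul_le.trans ?_)
          refine (add_le_add (Polynomial.natDegree_X_pow_le s) (hG1 s hs i j)).trans ?_
          nlinarith [Nat.zero_le (q' * s)]
        · simp
        · exact hS1 c j
        · show (if c' = c then Polynomial.C ((g : ℤ) * z c) * T ^ s else 0 : Polynomial ℤ).natDegree ≤ _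
          split_ifs
          · refine (Polynomial.natDegree_C_mul_le _ _).trans (Polynomial.natDegree_pow_le.trans ?_)
            have h1 := Nat.mul_le_mul_left s hy.degT
            nlinarith [Nat.zero_le (q' * s)]
          · simp
      · have hs2 : ∀ x : ℝ, 1 ≤ x → x ^ s ≤ x ^ (k + 1) := fun x hx => pow_le_pow_right₀ hx (by omega)
        have hsk : (s : ℝ) ≤ 2 ^ (k + 1) := by
          have h1 := succ_le_two_pow s
          have h2 := hs2 2 (by norm_num)
          linarith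
        have hCk : C ≤ C ^ (k + 1) := le_self_pow₀ hC (by omega)
        have hqC : (1 : ℝ) ≤ 2 ^ q * C := by
          have := one_le_two_pow q
          nlinarith
        rintro (i | c) (j | c') l
        · show |(((Polynomial.C (D : ℤ) * (Polynomial.X ^ s * G s i j)).coeff l : ℤ) : ℝ)| ≤ _
          have h1 : |(((Polynomial.X ^ s * G s i j).coeff l : ℤ) : ℝ)| ≤ C ^ (k + 1) := by
            rw [Polynomial.coeff_X_pow_mul']
            split_ifs
            · exact hG2 s hs i j _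
            · simp only [Int.cast_zero, abs_zero]; positivity
          rw [Polynomial.coeff_C_mul]
          push_cast
          rw [abs_mul, abs_of_nonneg (by positivity : (0 : ℝ) ≤ (D : ℝ))]
          calc (D : ℝ) * |(((Polynomial.X ^ s * G s i j).coeff l : ℤ) : ℝ)| ≤ (2 ^ 10) ^ (k + 1) * C ^ (k + 1) :=
                mul_le_mul hDk h1 (abs_nonneg _) (by positivity)
            _ = (2 ^ 10 * C ^ 1) ^ (k + 1) := by rw [← mul_pow, pow_one]
            _ ≤ _ := pw _ _ (by omega) (by omega) _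
        · show |(((0 : Polynomial ℤ).coeff l : ℤ) : ℝ)| ≤ _
          simp only [Polynomial.coeff_zero, Int.cast_zero, abs_zero]
          positivity
        · show |(((S c j).coeff l : ℤ) : ℝ)| ≤ _
          refine ((hS2 c j).coeff l).trans ?_
          calc (s : ℝ) * ((D : ℝ) * (2 + e) ^ s * ((2 ^ q * C) ^ s *
                (N * (s * (2 ^ (2 * q') * C * ((2 ^ q) ^ k * C ^ (k + 1)))))))
              ≤ 2 ^ (k + 1) * ((2 ^ 10) ^ (k + 1) * (2 ^ (e + 1)) ^ (k + 1) * ((2 ^ q * C) ^ (k + 1) *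
                ((2 ^ N) ^ (k + 1) * (2 ^ (k + 1) * ((2 ^ (2 * q')) ^ (k + 1) * C ^ (k + 1) *
                ((2 ^ q) ^ (k + 1) * C ^ (k + 1))))))) := by
                have e1 : (2 + (e : ℝ)) ^ s ≤ (2 ^ (e + 1)) ^ (k + 1) := by
                  have h1 : 2 + (e : ℝ) ≤ 2 ^ (e + 1) := by
                    rw [pow_succ]
                    have := one_le_two_pow e
                    linarith
                  exact (pow_le_pow_left₀ (by positivity) h1 _).trans (hs2 _ (one_le_two_pow _))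
                have e2 : (2 ^ q * C) ^ s ≤ (2 ^ q * C) ^ (k + 1) := hs2 _ hqC
                have e3 : (N : ℝ) ≤ (2 ^ N) ^ (k + 1) :=
                  hN2.trans (le_self_pow₀ (one_le_two_pow N) (by omega))
                have e4 : (2 : ℝ) ^ (2 * q') ≤ (2 ^ (2 * q')) ^ (k + 1) :=
                  le_self_pow₀ (one_le_two_pow _) (by omega)
                have e5 : ((2 : ℝ) ^ q) ^ k ≤ (2 ^ q) ^ (k + 1) :=
                  pow_le_pow_right₀ (one_le_two_pow q) (by omega)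
                gcongr
            _ = (2 ^ (13 + e + 2 * q + N + 2 * q') * C ^ 3) ^ (k + 1) := by
                rw [← mul_pow, ← mul_pow, ← mul_pow, ← mul_pow, ← mul_pow, ← mul_pow, ← mul_pow, ← mul_pow,
                  ← mul_pow]
                congr 1
                ring
            _ ≤ _ := pw _ _ (by omega) (by omega) _
        · show |(((if c' = c then Polynomial.C ((g : ℤ) * z c) * T ^ s else 0 : Polynomial ℤ).coeff l : ℤ) : ℝ)| ≤ _
          split_ifs
          · have h1 := ((Dm_T hC hy.degT hy.sizeT).pow s).coeff l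
            rw [Polynomial.coeff_C_mul]
            push_cast
            rw [abs_mul, abs_mul, abs_of_nonneg (by positivity : (0 : ℝ) ≤ (g : ℝ))]
            have e0 := hz c
            calc (g : ℝ) * |(z c : ℝ)| * |(((T ^ s).coeff l : ℤ) : ℝ)|
                ≤ C ^ (k + 1) * ((2 ^ 10) ^ (k + 1) * (2 ^ e) ^ (k + 1)) * (2 ^ q * C) ^ (k + 1) := by
                  have e1 : |(z c : ℝ)| ≤ (2 ^ 10) ^ (k + 1) * (2 ^ e) ^ (k + 1) := by
                    refine e0.trans (mul_le_mul hDk ?_ (by positivity) (by positivity))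
                    exact (pow_le_pow_left₀ (by positivity) he2 _).trans (hs2 _ (one_le_two_pow _))
                  have e2 : |(((T ^ s).coeff l : ℤ) : ℝ)| ≤ (2 ^ q * C) ^ (k + 1) := h1.trans (hs2 _ hqC)
                  refine mul_le_mul (mul_le_mul hg e1 (abs_nonneg _) (by positivity)) e2 (abs_nonneg _)
                    (by positivity)
              _ = (2 ^ (10 + e + q) * C ^ 2) ^ (k + 1) := by
                  rw [← mul_pow, ← mul_pow, ← mul_pow]
                  congr 1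
                  ring
              _ ≤ _ := pw _ _ (by omega) (by omega) _
          · simp only [Polynomial.coeff_zero, Int.cast_zero, abs_zero]
            positivity
      · rintro (i | c)
        · rw [Fintype.sum_sum_type]
          simp only [Sum.elim_inl, Sum.elim_inr, ps_zero, zero_mul, Finset.sum_const_zero, add_zero]
          have h1 : ((D * g : ℕ) : ℚ⟦X⟧) * (ps (Polynomial.X * T) ^ s * hd s (y i)) =
              (D : ℚ⟦X⟧) * X ^ s * ((g : ℚ⟦X⟧) * (ps T ^ s * hd s (y i))) := by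
            rw [ps_mul, ps_X, mul_pow]
            push_cast
            ring
          rw [h1, hG3 s hs i, Finset.mul_sum]
          refine Finset.sum_congr rfl fun j _ => ?_
          rw [ps_mul, ps_C, ps_mul, ps_X_pow]
          push_cast
          ring
        · rw [Fintype.sum_sum_type]
          simp only [Sum.elim_inl, Sum.elim_inr]
          rw [Nat.cast_mul, mul_assoc, hS3 c]
          congr 1
          rw [Finset.sum_eq_single c]
          · rw [if_pos rfl]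
          · intro c' _ hc'
            rw [if_neg hc', ps_zero, zero_mul]
          · intro hc
            exact absurd (Finset.mem_univ _) hc

end Pool.Agent.Y419.HY
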